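import Pool.Agent.H89.EN.Defs

/-!
# Change of measure for product measures
-/

set_option autoImplicit false
set_option linter.unusedSectionVars false

namespace Pool.Agent.H89.EN

open Finset Pool.Agent.K4H60.BZ
open scoped Pointwise BigOperators ComplexConjugate

namespace ChgAux

variable {Ω : Type*} [Fintype Ω] [DecidableEq Ω]

theorem sum_prod_one {μ : Ω → ℝ} (hμ : ∑ x, μ x = 1) (n : ℕ) :
    ∑ z : Fin n → Ω, ∏ i, μ (z i) = 1 := by
  have h := (Finset.prod_univ_sum (fun _ : Fin n => (Finset.univ : Finset Ω)) (fun _ x => μ x)).symm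
  rw [Fintype.piFinset_univ] at h
  rw [h, hμ]
  simp

theorem sum_prod_apply {μ : Ω → ℝ} (hμ : ∑ x, μ x = 1) (g : Ω → ℝ) {n : ℕ} (j : Fin n) :
    ∑ z : Fin n → Ω, (∏ i, μ (z i)) * g (z j) = ∑ x, μ x * g x := by
  have h := (Finset.prod_univ_sum (fun _ : Fin n => (Finset.univ : Finset Ω))
    (fun i x => if i = j then μ x * g x else μ x)).symm
  rw [Fintype.piFinset_univ] at h
  have h1 : ∀ z : Fin n → Ω, (∏ i, μ (z i)) * g (z j) =
      ∏ i, (if i = j then μ (z i) * g (z i) else μ (z i)) := by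
    intro z
    have : ∀ i, (if i = j then μ (z i) * g (z i) else μ (z i)) =
        μ (z i) * (if i = j then g (z i) else 1) := by
      intro i
      split_ifs <;> ring
    rw [Finset.prod_congr rfl fun i _ => this i, Finset.prod_mul_distrib]
    congr 1
    rw [Finset.prod_ite_eq' Finset.univ j]
    simp
  rw [Finset.sum_congr rfl fun z _ => h1 z, h]
  have h2 : ∀ i : Fin n, (∑ x, if i = j then μ x * g x else μ x) =
      if i = j then ∑ x, μ x * g x else 1 := by
    intro i
    split_ifs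
    · rfl
    · exact hμ
  rw [Finset.prod_congr rfl fun i _ => h2 i, Finset.prod_ite_eq' Finset.univ j]
  simp

theorem entropy_prod {μ ν : Ω → ℝ} (hμ : IsProb μ)
    (habs : ∀ x, ν x = 0 → μ x = 0) (n : ℕ) :
    ∑ z : Fin n → Ω, (∏ i, μ (z i)) * (Real.log (∏ i, μ (z i)) - Real.log (∏ i, ν (z i))) =
      n * ∑ x, μ x * (Real.log (μ x) - Real.log (ν x)) := by
  have h1 : ∀ z : Fin n → Ω,
      (∏ i, μ (z i)) * (Real.log (∏ i, μ (z i)) - Real.log (∏ i, ν (z i))) =
      ∑ j, (∏ i, μ (z i)) * (Real.log (μ (z j)) - Real.log (ν (z j))) := by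
    intro z
    rw [← Finset.mul_sum]
    by_cases h0 : ∏ i, μ (z i) = 0
    · rw [h0, zero_mul, zero_mul]
    · congr 1
      have h2 : ∀ i ∈ (Finset.univ : Finset (Fin n)), μ (z i) ≠ 0 := by
        intro i hi h
        exact h0 (Finset.prod_eq_zero hi h)
      rw [Real.log_prod h2, Real.log_prod (fun i hi h => h2 i hi (habs _ h)),
        ← Finset.sum_sub_distrib]
  rw [Finset.sum_congr rfl fun z _ => h1 z, Finset.sum_comm]
  have h3 : ∀ j : Fin n, ∑ z : Fin n → Ω, (∏ i, μ (z i)) *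
      (Real.log (μ (z j)) - Real.log (ν (z j))) = ∑ x, μ x * (Real.log (μ x) - Real.log (ν x)) :=
    fun j => sum_prod_apply hμ.2 (fun x => Real.log (μ x) - Real.log (ν x)) j
  rw [Finset.sum_congr rfl fun j _ => h3 j]
  simp

/-- Gibbs variational inequality -/
theorem gibbs {Θ : Type*} [Fintype Θ] {Q R φ : Θ → ℝ} (hQ : ∀ z, 0 ≤ Q z) (hQ1 : ∑ z, Q z = 1)
    (hR : ∀ z, 0 ≤ R z) (habs : ∀ z, R z = 0 → Q z = 0) (hZ : 0 < ∑ z, R z * Real.exp (φ z)) :
    ∑ z, Q z * φ z - ∑ z, Q z * (Real.log (Q z) - Real.log (R z)) ≤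
      Real.log (∑ z, R z * Real.exp (φ z)) := by
  set Z := ∑ z, R z * Real.exp (φ z) with hZdef
  have key : ∀ z, Q z * φ z - Q z * (Real.log (Q z) - Real.log (R z)) - Q z * Real.log Z ≤
      R z * Real.exp (φ z) / Z - Q z := by
    intro z
    rcases (hQ z).lt_or_eq with h | h
    · have hRz : 0 < R z := lt_of_le_of_ne (hR z) (fun h0 => h.ne' (habs z h0.symm))
      have h1 : 0 < R z * Real.exp (φ z) / (Q z * Z) := by positivity
      have h2 := Real.log_le_sub_one_of_pos h1
      have h3 : Real.log (R z * Real.exp (φ z) / (Q z * Z)) =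
          Real.log (R z) + φ z - (Real.log (Q z) + Real.log Z) := by
        rw [Real.log_div (by positivity) (by positivity), Real.log_mul hRz.ne' (by positivity),
          Real.log_mul h.ne' hZ.ne', Real.log_exp]
      rw [h3] at h2
      have h4 := mul_le_mul_of_nonneg_left h2 h.le
      have h5 : Q z * (R z * Real.exp (φ z) / (Q z * Z) - 1) =
          R z * Real.exp (φ z) / Z - Q z := by
        field_simp
      rw [h5] at h4
      linarith
    · rw [← h]
      have : 0 ≤ R z * Real.exp (φ z) / Z := by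
        have := hR z
        positivity
      simpa using this
  have hs := Finset.sum_le_sum fun z (_ : z ∈ (Finset.univ : Finset Θ)) => key z
  rw [Finset.sum_sub_distrib, Finset.sum_sub_distrib, Finset.sum_sub_distrib, ← Finset.sum_mul,
    hQ1, ← Finset.sum_div, ← hZdef, div_self hZ.ne'] at hs
  linarith

end ChgAux

open ChgAux

theorem chg {Ω : Type*} [Fintype Ω] [DecidableEq Ω] (μ ν : Ω → ℝ) (hμ : IsProb μ) (hν : IsProb ν)
    (habs : ∀ x, ν x = 0 → μ x = 0) (n : ℕ) (E : Finset (Fin n → Ω))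
    (hE : 1 / 2 ≤ ∑ z ∈ E, ∏ i, μ (z i)) :
    Real.exp (-(2 * n * ∑ x, μ x * (Real.log (μ x) - Real.log (ν x)))) / 4 ≤ ∑ z ∈ E, ∏ i, ν (z i) := by
  classical
  set D := ∑ x, μ x * (Real.log (μ x) - Real.log (ν x)) with hD
  set Q : (Fin n → Ω) → ℝ := fun z => ∏ i, μ (z i) with hQdef
  set R : (Fin n → Ω) → ℝ := fun z => ∏ i, ν (z i) with hRdef
  have hQ : ∀ z, 0 ≤ Q z := fun z => Finset.prod_nonneg fun i _ => hμ.1 _
  have hR : ∀ z, 0 ≤ R z := fun z => Finset.prod_nonneg fun i _ => hν.1 _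
  have hQ1 : ∑ z, Q z = 1 := sum_prod_one hμ.2 n
  have hR1 : ∑ z, R z = 1 := sum_prod_one hν.2 n
  have habs' : ∀ z, R z = 0 → Q z = 0 := by
    intro z h
    obtain ⟨i, hi, h0⟩ := Finset.prod_eq_zero_iff.mp h
    exact Finset.prod_eq_zero hi (habs _ h0)
  have hent : ∑ z, Q z * (Real.log (Q z) - Real.log (R z)) = n * D := entropy_prod hμ habs n
  -- `n D ≥ 0`
  have hnD : 0 ≤ n * D := by
    have h := gibbs (φ := fun _ => 0) hQ hQ1 hR habs' (by simp [hR1])
    rw [hent] at h
    simp only [mul_zero, Finset.sum_const_zero, Real.exp_zero, mul_one, hR1, Real.log_one] at h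
    linarith
  set lam := 2 * (n * D + Real.log 2) with hlam
  have hlog2 : 0 < Real.log 2 := Real.log_pos one_lt_two
  have hlam0 : 0 < lam := by
    rw [hlam]
    linarith
  have hZeq : ∑ z, R z * Real.exp (if z ∈ E then lam else 0) =
      1 + (Real.exp lam - 1) * ∑ z ∈ E, R z := by
    have h1 : ∀ z, R z * Real.exp (if z ∈ E then lam else 0) =
        R z + (if z ∈ E then (Real.exp lam - 1) * R z else 0) := by
      intro z
      split_ifs
      · ring
      · rw [Real.exp_zero]
        ring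
    rw [Finset.sum_congr rfl fun z _ => h1 z, Finset.sum_add_distrib, hR1, Finset.sum_ite_mem,
      Finset.univ_inter, ← Finset.mul_sum]
  have hexp : 0 < Real.exp lam - 1 := by
    have := Real.add_one_lt_exp hlam0.ne'
    linarith
  have hRE : 0 ≤ ∑ z ∈ E, R z := Finset.sum_nonneg fun z _ => hR z
  have hZ : 0 < ∑ z, R z * Real.exp (if z ∈ E then lam else 0) := by
    rw [hZeq]
    positivity
  have h := gibbs hQ hQ1 hR habs' hZ
  rw [hent, hZeq] at h
  have hQE : ∑ z, Q z * (if z ∈ E then lam else 0) = lam * ∑ z ∈ E, Q z := by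
    have h1 : ∀ z, Q z * (if z ∈ E then lam else 0) = if z ∈ E then lam * Q z else 0 := by
      intro z
      split_ifs <;> ring
    rw [Finset.sum_congr rfl fun z _ => h1 z, Finset.sum_ite_mem, Finset.univ_inter,
      ← Finset.mul_sum]
  rw [hQE] at h
  have h2 : lam * (1 / 2) ≤ lam * ∑ z ∈ E, Q z := by gcongr
  have h3 : Real.log 2 ≤ Real.log (1 + (Real.exp lam - 1) * ∑ z ∈ E, R z) := by
    have : lam * (1 / 2) = n * D + Real.log 2 := by
      rw [hlam]
      ring
    linarith
  have h4 : 2 ≤ 1 + (Real.exp lam - 1) * ∑ z ∈ E, R z :=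
    (Real.log_le_log_iff (by norm_num) (by positivity)).mp h3
  have h5 : Real.exp (-(2 * n * D)) / 4 = (Real.exp lam)⁻¹ := by
    rw [← Real.exp_neg, hlam]
    have : -(2 * (n * D + Real.log 2)) = -(2 * n * D) + -(Real.log 4) := by
      have h44 : Real.log 4 = 2 * Real.log 2 := by
        rw [show (4:ℝ) = 2 ^ 2 by norm_num, Real.log_pow]
        norm_num
      rw [h44]
      ring
    rw [this, Real.exp_add, Real.exp_neg (Real.log 4), Real.exp_log (by norm_num)]
    ring
  rw [h5]
  show (Real.exp lam)⁻¹ ≤ ∑ z ∈ E, R z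
  rw [inv_le_iff_one_le_mul₀ (Real.exp_pos _)]
  nlinarith

end Pool.Agent.H89.EN
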