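import Pool.Agent.H89.EN.Defs

/-!
# Bohr sets from almost periodicity with respect to a probability measure
-/

set_option autoImplicit false
set_option linter.unusedSectionVars false

namespace Pool.Agent.H89.EN

open Finset Pool.Agent.K4H60.BZ
open scoped Pointwise BigOperators ComplexConjugate

variable {G : Type*} [AddCommGroup G] [Fintype G] [DecidableEq G]

theorem core_hm_nonneg (μ : G → ℝ) (hμ : IsProb μ) (W : Finset G) (y : G) : 0 ≤ hm μ W y :=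
  sum_nonneg fun x _ => mul_nonneg (hμ.1 x) (ind_nonneg _ _)

theorem core_hm_le_one (μ : G → ℝ) (hμ : IsProb μ) (W : Finset G) (y : G) : hm μ W y ≤ 1 := by
  unfold hm
  calc _ ≤ ∑ x, μ x := sum_le_sum fun x _ => mul_le_of_le_one_right (hμ.1 x) (ind_le_one _ _)
    _ = 1 := hμ.2

/-- Cauchy-Schwarz for the Fourier coefficients of two sets. -/
theorem core_cs (D Y : Finset G) :
    ∑ ψ : AddChar G ℂ, ‖∑ w ∈ D, ψ w‖ * ‖∑ a ∈ Y, ψ a‖ ≤
      Fintype.card G * Real.sqrt (D.card * Y.card) := by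
  classical
  have h1 := Finset.sum_mul_sq_le_sq_mul_sq (univ : Finset (AddChar G ℂ)) (fun ψ => ‖∑ w ∈ D, ψ w‖)
    (fun ψ => ‖∑ a ∈ Y, ψ a‖)
  rw [parseval_set, parseval_set] at h1
  have h2 : (∑ ψ : AddChar G ℂ, ‖∑ w ∈ D, ψ w‖ * ‖∑ a ∈ Y, ψ a‖) ^ 2 ≤
      ((Fintype.card G : ℝ) * Real.sqrt (D.card * Y.card)) ^ 2 := by
    refine h1.trans (le_of_eq ?_)
    rw [mul_pow, Real.sq_sqrt (by positivity)]
    ring
  exact (abs_le_of_sq_le_sq' h2 (by positivity)).2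

theorem core (μ : G → ℝ) (hμ : IsProb μ) (W Y T : Finset G) (hY : Y.Nonempty) (hT : T.Nonempty) (m : ℕ)
    (hm' : 32 ^ 2 * (W.card : ℝ) ≤ 16 ^ m * Y.card)
    (hAP : ∀ s s' : Fin m → G, (∀ i, s i ∈ T) → (∀ i, s' i ∈ T) →
      3 / 4 * (Y.card : ℝ) ≤ ∑ b ∈ Y, hm μ W (-b + ∑ i, (s i - s' i))) :
    ∃ Λ : Finset (AddChar G ℂ), (Λ.card : ℝ) ≤ 8 * Real.log (Fintype.card G / T.card) ∧
      ∀ x : G, (∀ ψ ∈ Λ, ‖ψ x - 1‖ ≤ 1 / (216 * ((Λ.card : ℝ) + 1) ^ 3)) → ∃ w₁ ∈ W, ∃ w₂ ∈ W, x = w₁ - w₂ := by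
  classical
  have hYpos : (0 : ℝ) < Y.card := by exact_mod_cast hY.card_pos
  have hTpos : (0 : ℝ) < T.card := by exact_mod_cast hT.card_pos
  have hGpos : (0 : ℝ) < Fintype.card G := by exact_mod_cast Fintype.card_pos
  obtain ⟨Λ, hΛ, hspan⟩ := spec_span T hT
  refine ⟨Λ, hΛ, ?_⟩
  intro x hx
  obtain ⟨P, hP⟩ : ∃ P : Finset (Fin m → G), P = Fintype.piFinset (fun _ : Fin m => T) := ⟨_, rfl⟩
  have hPcard : (P.card : ℝ) = (T.card : ℝ) ^ m := by
    rw [hP, Fintype.card_piFinset, prod_const, card_univ, Fintype.card_fin]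
    push_cast
    rfl
  have hmemP : ∀ s, s ∈ P ↔ ∀ i, s i ∈ T := by
    intro s
    rw [hP, Fintype.mem_piFinset]
  -- the index set
  obtain ⟨I, hI⟩ : ∃ I : Finset (G × ((Fin m → G) × (Fin m → G))), I = Y ×ˢ (P ×ˢ P) := ⟨_, rfl⟩
  have hIcard : (I.card : ℝ) = (Y.card : ℝ) * ((T.card : ℝ) ^ m) ^ 2 := by
    rw [hI, card_product, card_product]
    push_cast
    rw [hPcard]
    ring
  have hIpos : (0 : ℝ) < I.card := by rw [hIcard]; positivity
  obtain ⟨pt, hpt⟩ : ∃ pt : (G × ((Fin m → G) × (Fin m → G))) → G,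
    pt = fun j => -j.1 + ∑ i, (j.2.1 i - j.2.2 i) := ⟨_, rfl⟩
  obtain ⟨hR, hhR⟩ : ∃ hR : G → ℝ, hR = fun y => (∑ j ∈ I, hm μ W (pt j + y)) / I.card := ⟨_, rfl⟩
  have hR0 : ∀ y, 0 ≤ hR y := by
    intro y
    rw [hhR]
    exact div_nonneg (sum_nonneg fun j _ => core_hm_nonneg _ hμ _ _) (Nat.cast_nonneg _)
  have hR1 : ∀ y, hR y ≤ 1 := by
    intro y
    rw [hhR]
    apply div_le_one_of_le₀ _ (Nat.cast_nonneg _)
    calc _ ≤ ∑ j ∈ I, (1 : ℝ) := sum_le_sum fun j _ => core_hm_le_one _ hμ _ _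
      _ = _ := by simp
  have hRzero : 3 / 4 ≤ hR 0 := by
    rw [hhR]
    simp only
    rw [le_div_iff₀ hIpos]
    have e1 : ∑ j ∈ I, hm μ W (pt j + 0) =
        ∑ p ∈ P ×ˢ P, ∑ b ∈ Y, hm μ W (-b + ∑ i, (p.1 i - p.2 i)) := by
      rw [hI, sum_product_right]
      apply sum_congr rfl
      intro p _
      apply sum_congr rfl
      intro b _
      rw [hpt, add_zero]
    rw [e1]
    calc 3 / 4 * (I.card : ℝ) = ∑ p ∈ P ×ˢ P, 3 / 4 * (Y.card : ℝ) := by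
          rw [sum_const, card_product, nsmul_eq_mul, hIcard]
          push_cast
          rw [hPcard]
          ring
      _ ≤ _ := by
          apply sum_le_sum
          intro p hp
          rw [mem_product] at hp
          exact hAP p.1 p.2 ((hmemP _).1 hp.1) ((hmemP _).1 hp.2)
  -- Fourier coefficients
  obtain ⟨co, hco⟩ : ∃ co : AddChar G ℂ → ℂ, co = fun ψ => ((∑ w ∈ W, conj (ψ w)) / Fintype.card G) *
    (((∑ a, (μ a : ℂ) * ψ a) * conj (∑ b ∈ Y, ψ b)) * ((‖∑ t ∈ T, ψ t‖ ^ 2 : ℝ) : ℂ) ^ m) / (I.card : ℂ) := ⟨_, rfl⟩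
  have hexp : ∀ y, ((hR y : ℝ) : ℂ) = ∑ ψ, co ψ * ψ y := by
    intro y
    rw [hhR, hco]
    unfold hm
    push_cast
    simp_rw [ind_expand]
    have e0 : ∀ j ∈ I, ∑ a, (μ a : ℂ) * ∑ ψ : AddChar G ℂ, ((∑ w ∈ W, conj (ψ w)) / Fintype.card G) * ψ (a + (pt j + y)) =
        ∑ ψ : AddChar G ℂ, (((∑ w ∈ W, conj (ψ w)) / Fintype.card G) * ψ y * (∑ a, (μ a : ℂ) * ψ a)) *
          (ψ (-j.1) * ψ (∑ i, (j.2.1 i - j.2.2 i))) := by
      intro j _
      simp_rw [mul_sum]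
      rw [sum_comm]
      apply sum_congr rfl
      intro ψ _
      rw [sum_mul]
      apply sum_congr rfl
      intro a _
      rw [hpt, AddChar.map_add_eq_mul, AddChar.map_add_eq_mul, AddChar.map_add_eq_mul]
      ring
    rw [sum_congr rfl e0, sum_comm, sum_div]
    apply sum_congr rfl
    intro ψ _
    rw [← mul_sum]
    have e2 : ∑ j ∈ I, (ψ (-j.1) * ψ (∑ i, (j.2.1 i - j.2.2 i))) =
        ((conj (∑ b ∈ Y, ψ b)) * ((‖∑ t ∈ T, ψ t‖ ^ 2 : ℝ) : ℂ) ^ m) := by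
      rw [hI, sum_product]
      have e3 := sum_mul_sum Y (P ×ˢ P) (fun p : G => ψ (-p))
        (fun p : (Fin m → G) × (Fin m → G) => ψ (∑ i, (p.1 i - p.2 i)))
      refine e3.symm.trans ?_
      congr 1
      · rw [map_sum]
        apply sum_congr rfl
        intro b _
        rw [AddChar.map_neg_eq_conj]
      · rw [← sum_tuples, sum_product, hP]
    rw [e2]
    push_cast
    ring
  -- the set S
  obtain ⟨S, hS⟩ : ∃ S : Set (AddChar G ℂ), S = {ψ | (T.card : ℝ) / 2 ≤ ‖∑ t ∈ T, ψ t‖} := ⟨_, rfl⟩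
  have hmass : ∑ ψ ∈ univ.filter (fun ψ => ψ ∉ S), ‖co ψ‖ ≤ 1 / 32 := by
    have e1 : ∀ ψ ∈ univ.filter (fun ψ => ψ ∉ S), ‖co ψ‖ ≤
        (1 / (Fintype.card G * (Y.card : ℝ) * 4 ^ m)) * (‖∑ w ∈ W, ψ w‖ * ‖∑ b ∈ Y, ψ b‖) := by
      intro ψ hψ
      rw [mem_filter, hS] at hψ
      have hψ2 : ‖∑ t ∈ T, ψ t‖ ≤ (T.card : ℝ) / 2 := by
        by_contra hcon
        exact hψ.2 (le_of_lt (not_le.1 hcon))
      have f0 : ‖∑ w ∈ W, conj (ψ w)‖ = ‖∑ w ∈ W, ψ w‖ := by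
        rw [← map_sum, RCLike.norm_conj]
      have f1 : ‖∑ a, (μ a : ℂ) * ψ a‖ ≤ 1 := by
        refine (norm_sum_le _ _).trans ?_
        rw [← hμ.2]
        apply sum_le_sum
        intro a _
        rw [norm_mul, AddChar.norm_apply, mul_one, Complex.norm_real, Real.norm_eq_abs, abs_of_nonneg (hμ.1 a)]
      have f2 : (‖∑ t ∈ T, ψ t‖ ^ 2) ^ m ≤ ((T.card : ℝ) ^ m) ^ 2 / 4 ^ m := by
        calc (‖∑ t ∈ T, ψ t‖ ^ 2) ^ m ≤ (((T.card : ℝ) / 2) ^ 2) ^ m := by gcongr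
          _ = _ := by
            rw [div_pow, div_pow, ← pow_mul, mul_comm 2 m, pow_mul]
            norm_num
      rw [hco]
      simp only [norm_div, norm_mul, norm_pow, Complex.norm_real, norm_norm, Complex.norm_natCast,
        RCLike.norm_conj]
      rw [hIcard, f0]
      calc ‖∑ w ∈ W, ψ w‖ / (Fintype.card G : ℝ) *
            (‖∑ a, (μ a : ℂ) * ψ a‖ * ‖∑ b ∈ Y, ψ b‖ * (‖∑ t ∈ T, ψ t‖ ^ 2) ^ m) /
            ((Y.card : ℝ) * ((T.card : ℝ) ^ m) ^ 2)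
          ≤ ‖∑ w ∈ W, ψ w‖ / (Fintype.card G : ℝ) * (1 * ‖∑ b ∈ Y, ψ b‖ * (((T.card : ℝ) ^ m) ^ 2 / 4 ^ m)) /
            ((Y.card : ℝ) * ((T.card : ℝ) ^ m) ^ 2) := by gcongr
        _ = _ := by
          field_simp
    refine (sum_le_sum e1).trans ?_
    calc _ ≤ ∑ ψ : AddChar G ℂ, (1 / (Fintype.card G * (Y.card : ℝ) * 4 ^ m)) *
          (‖∑ w ∈ W, ψ w‖ * ‖∑ b ∈ Y, ψ b‖) :=
          sum_le_sum_of_subset_of_nonneg (subset_univ _) fun ψ _ _ => by positivity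
      _ ≤ (1 / (Fintype.card G * (Y.card : ℝ) * 4 ^ m)) *
          (Fintype.card G * Real.sqrt (W.card * Y.card)) := by
          rw [← mul_sum]
          gcongr
          exact core_cs _ _
      _ = Real.sqrt (W.card * Y.card) / (Y.card * 4 ^ m) := by
          field_simp
      _ ≤ 1 / 32 := by
          rw [div_le_div_iff₀ (by positivity) (by norm_num), one_mul]
          have h1 : Real.sqrt (W.card * Y.card) ≤ (Y.card * 4 ^ m) / 32 := by
            rw [Real.sqrt_le_left (by positivity)]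
            have e3 : ((Y.card : ℝ) * 4 ^ m / 32) ^ 2 = Y.card * (16 ^ m * Y.card) / 32 ^ 2 := by
              rw [div_pow, mul_pow, ← pow_mul, mul_comm m 2, pow_mul]
              norm_num
              ring
            rw [e3, le_div_iff₀ (by norm_num)]
            calc (W.card : ℝ) * (Y.card : ℝ) * 32 ^ 2 = (Y.card : ℝ) * (32 ^ 2 * (W.card : ℝ)) := by
                  ring
              _ ≤ (Y.card : ℝ) * (16 ^ m * (Y.card : ℝ)) := by gcongr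
          linarith
  -- the kernel
  obtain ⟨t, ht, hslow⟩ := exists_slow Λ
  obtain ⟨δ, hδ⟩ : ∃ δ : ℝ, δ = 1 / (216 * ((Λ.card : ℝ) + 1) ^ 3) := ⟨_, rfl⟩
  rw [← hδ] at hx
  have hδ0 : 0 ≤ δ := by rw [hδ]; positivity
  have hbound : ∀ s ≤ t + 1, ∀ q ∈ QQ Λ s, ‖q x - 1‖ ≤ 1 / 24 := by
    intro s hs q hq
    refine (QQ_bound Λ s x δ hδ0 hx q hq).trans ?_
    have h1 : (s : ℝ) ≤ 9 * ((Λ.card : ℝ) + 1) ^ 2 := by
      have : s ≤ 9 * (Λ.card + 1) ^ 2 := by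
        have : 1 ≤ (Λ.card + 1) ^ 2 := Nat.one_le_pow _ _ (by omega)
        omega
      exact_mod_cast this
    have h2 : (Λ.card : ℝ) ≤ (Λ.card : ℝ) + 1 := by linarith
    calc (Λ.card : ℝ) * (s * δ) ≤ ((Λ.card : ℝ) + 1) * ((9 * ((Λ.card : ℝ) + 1) ^ 2) * δ) := by gcongr
      _ = 1 / 24 := by
        rw [hδ]
        field_simp
        norm_num
  have hker := kernel (fun y => ((hR y : ℝ) : ℂ)) co hexp (by
      intro y
      rw [Complex.norm_real, Real.norm_eq_abs, abs_of_nonneg (hR0 y)]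
      exact hR1 y) S (QQ Λ t) (QQ Λ (t + 1)) (QQ_nonempty Λ t) hslow (by
      intro ψ hψ q hq
      rw [hS] at hψ
      obtain ⟨ε, hε, he⟩ := hspan ψ hψ
      rw [he]
      exact add_mem_QQ Λ t ε hε q hq) x (1 / 24) (by norm_num)
      (fun q hq => hbound t (by omega) q hq) (fun q hq => hbound (t + 1) le_rfl q hq)
  have hRx : 1 / 2 < hR x := by
    have e1 : ((hR x : ℝ) : ℂ) - ((hR 0 : ℝ) : ℂ) = ((hR x - hR 0 : ℝ) : ℂ) := by push_cast; rfl
    rw [e1, Complex.norm_real, Real.norm_eq_abs] at hker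
    have h1 := abs_le.1 (hker.trans (add_le_add (mul_le_mul_of_nonneg_left hmass (by norm_num)) le_rfl))
    linarith [h1.1]
  -- conclusion
  have hfin : ∃ j ∈ I, ∃ a : G, a + (pt j + 0) ∈ W ∧ a + (pt j + x) ∈ W := by
    by_contra hcon
    push Not at hcon
    have h1 : ∀ j ∈ I, hm μ W (pt j + 0) + hm μ W (pt j + x) ≤ 1 := by
      intro j hj
      unfold hm
      rw [← sum_add_distrib, ← hμ.2]
      apply sum_le_sum
      intro a _
      rw [← mul_add]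
      apply mul_le_of_le_one_right (hμ.1 a)
      unfold ind
      by_cases h : a + (pt j + 0) ∈ W
      · rw [if_pos h, if_neg (hcon j hj a h)]
        norm_num
      · rw [if_neg h]
        split_ifs <;> norm_num
    have h2 : hR 0 + hR x ≤ 1 := by
      rw [hhR]
      simp only
      rw [← add_div, ← sum_add_distrib, div_le_one hIpos]
      calc _ ≤ ∑ j ∈ I, (1 : ℝ) := sum_le_sum h1
        _ = _ := by simp
    linarith
  obtain ⟨j, _, a, h1, h2⟩ := hfin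
  refine ⟨_, h2, _, h1, ?_⟩
  abel

end Pool.Agent.H89.EN
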