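import Pool.Agent.H89.EN.Defs

/-!
# Even moments of a binomial sum, with the mean in front
-/

set_option autoImplicit false
set_option linter.unusedSectionVars false

namespace Pool.Agent.H89.EN

open Finset Pool.Agent.K4H60.BZ
open scoped Pointwise BigOperators ComplexConjugate

/-- one even Taylor term is at most `cosh - 1` -/
theorem mom_cosh (q : ℕ) (hq : 0 < q) (y : ℝ) :
    y ^ (2 * q) ≤ (Nat.factorial (2 * q) : ℝ) * ((Real.exp y + Real.exp (-y)) / 2 - 1) := by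
  have h := Real.hasSum_cosh y
  have h1 := sum_le_hasSum ({0, q} : Finset ℕ) (fun i _ => by
    show (0 : ℝ) ≤ y ^ (2 * i) / (Nat.factorial (2 * i) : ℝ)
    rw [pow_mul]
    positivity) h
  rw [sum_pair hq.ne] at h1
  simp only [mul_zero, pow_zero, Nat.factorial_zero, Nat.cast_one, div_one] at h1
  rw [Real.cosh_eq] at h1
  have hf : (0 : ℝ) < (Nat.factorial (2 * q) : ℝ) := by exact_mod_cast Nat.factorial_pos _
  have h2 : y ^ (2 * q) / (Nat.factorial (2 * q) : ℝ) ≤ (Real.exp y + Real.exp (-y)) / 2 - 1 := by linarith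
  rw [div_le_iff₀ hf] at h2
  linarith

/-- the exponential moment -/
theorem mom_exp {Ω : Type*} [Fintype Ω] (μ : Ω → ℝ) (hμ : IsProb μ) (ξ : Ω → ℝ) (hξ : ∀ x, ξ x = 0 ∨ ξ x = 1) (f : ℝ)
    (hf : f = ∑ x, μ x * ξ x) (hf0 : 0 ≤ f) (n : ℕ) (t : ℝ) (ht : |t| ≤ 1) :
    ∑ z : Fin n → Ω, (∏ i, μ (z i)) * Real.exp (t * ∑ i, (ξ (z i) - f)) ≤ Real.exp (n * (f * t ^ 2)) := by
  have h1 : ∀ z : Fin n → Ω, (∏ i, μ (z i)) * Real.exp (t * ∑ i, (ξ (z i) - f)) =
      ∏ i, (μ (z i) * Real.exp (t * (ξ (z i) - f))) := by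
    intro z
    rw [prod_mul_distrib, mul_sum, Real.exp_sum]
  simp_rw [h1]
  rw [← Fintype.sum_pow (fun x => μ x * Real.exp (t * (ξ x - f))) n, Real.exp_nat_mul]
  have h2 : ∀ x, μ x * Real.exp (t * (ξ x - f)) =
      Real.exp (-(t * f)) * (μ x + (μ x * ξ x) * (Real.exp t - 1)) := by
    intro x
    rcases hξ x with h | h
    · rw [h]
      rw [show t * (0 - f) = -(t * f) by ring]
      ring
    · rw [h]
      rw [show t * (1 - f) = -(t * f) + t by ring, Real.exp_add]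
      ring
  have h3 : ∑ x, μ x * Real.exp (t * (ξ x - f)) = Real.exp (-(t * f)) * (1 + f * (Real.exp t - 1)) := by
    rw [sum_congr rfl fun x _ => h2 x, ← mul_sum, sum_add_distrib, hμ.2, ← sum_mul, ← hf]
  have h4 : ∑ x, μ x * Real.exp (t * (ξ x - f)) ≤ Real.exp (f * t ^ 2) := by
    rw [h3]
    have e1 : 1 + f * (Real.exp t - 1) ≤ Real.exp (f * (Real.exp t - 1)) := by
      have := Real.add_one_le_exp (f * (Real.exp t - 1))
      linarith
    have e2 := Real.abs_exp_sub_one_sub_id_le ht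
    have e3 : Real.exp t - 1 - t ≤ t ^ 2 := (le_abs_self _).trans e2
    calc Real.exp (-(t * f)) * (1 + f * (Real.exp t - 1)) ≤
          Real.exp (-(t * f)) * Real.exp (f * (Real.exp t - 1)) := by gcongr
      _ = Real.exp (f * (Real.exp t - 1 - t)) := by
          rw [← Real.exp_add]
          congr 1
          ring
      _ ≤ Real.exp (f * t ^ 2) := by
          gcongr
  have h5 : 0 ≤ ∑ x, μ x * Real.exp (t * (ξ x - f)) :=
    sum_nonneg fun x _ => mul_nonneg (hμ.1 x) (Real.exp_pos _).le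
  exact pow_le_pow_left₀ h5 h4 n

/-- Even moments of a sampled sum, with the mean `f` in front. -/
theorem mom {Ω : Type*} [Fintype Ω] (μ : Ω → ℝ) (hμ : IsProb μ) (ξ : Ω → ℝ) (hξ : ∀ x, ξ x = 0 ∨ ξ x = 1) (f : ℝ)
    (hf : f = ∑ x, μ x * ξ x) (n q : ℕ) (hq : 0 < q) (hqn : q ≤ n) :
    ∑ z : Fin n → Ω, (∏ i, μ (z i)) * (∑ i, (ξ (z i) - f)) ^ (2 * q) ≤
      f * (4 * Real.exp 1 * q * n) ^ q := by
  have hn : 0 < n := lt_of_lt_of_le hq hqn
  have hn' : (0 : ℝ) < n := by exact_mod_cast hn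
  have hq' : (0 : ℝ) < q := by exact_mod_cast hq
  have hξ0 : ∀ x, 0 ≤ ξ x := fun x => by rcases hξ x with h | h <;> rw [h] <;> norm_num
  have hξ1 : ∀ x, ξ x ≤ 1 := fun x => by rcases hξ x with h | h <;> rw [h] <;> norm_num
  have hf0 : 0 ≤ f := by
    rw [hf]
    exact sum_nonneg fun x _ => mul_nonneg (hμ.1 x) (hξ0 x)
  have hf1 : f ≤ 1 := by
    rw [hf, ← hμ.2]
    apply sum_le_sum
    intro x _
    have := mul_le_mul_of_nonneg_left (hξ1 x) (hμ.1 x)
    linarith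
  obtain ⟨t, ht⟩ : ∃ t : ℝ, t = Real.sqrt (q / n) := ⟨_, rfl⟩
  have ht2 : t ^ 2 = q / n := by
    rw [ht, Real.sq_sqrt (by positivity)]
  have ht0 : 0 < t := by
    rw [ht]
    exact Real.sqrt_pos.mpr (by positivity)
  have ht1 : t ≤ 1 := by
    have h : t ^ 2 ≤ 1 := by
      rw [ht2, div_le_one hn']
      exact_mod_cast hqn
    nlinarith
  have hta : |t| ≤ 1 := by rw [abs_of_pos ht0]; exact ht1
  have hta' : |(-t)| ≤ 1 := by rw [abs_neg]; exact hta
  have hprod : ∑ z : Fin n → Ω, ∏ i, μ (z i) = 1 := by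
    rw [← Fintype.sum_pow μ n, hμ.2, one_pow]
  have hP : ∀ z : Fin n → Ω, 0 ≤ ∏ i, μ (z i) := fun z => prod_nonneg fun i _ => hμ.1 _
  have e1 := mom_exp μ hμ ξ hξ f hf hf0 n t hta
  have e2 := mom_exp μ hμ ξ hξ f hf hf0 n (-t) hta'
  rw [neg_sq] at e2
  have hfac : (0 : ℝ) < (Nat.factorial (2 * q) : ℝ) := by exact_mod_cast Nat.factorial_pos _
  have h1 : ∑ z : Fin n → Ω, (∏ i, μ (z i)) * (t * ∑ i, (ξ (z i) - f)) ^ (2 * q) ≤
      (Nat.factorial (2 * q) : ℝ) * (Real.exp (n * (f * t ^ 2)) - 1) := by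
    calc _ ≤ ∑ z : Fin n → Ω, (∏ i, μ (z i)) * ((Nat.factorial (2 * q) : ℝ) *
          ((Real.exp (t * ∑ i, (ξ (z i) - f)) + Real.exp (-(t * ∑ i, (ξ (z i) - f)))) / 2 - 1)) :=
          sum_le_sum fun z _ => mul_le_mul_of_nonneg_left (mom_cosh q hq _) (hP z)
      _ = (Nat.factorial (2 * q) : ℝ) *
          ((∑ z : Fin n → Ω, (∏ i, μ (z i)) * Real.exp (t * ∑ i, (ξ (z i) - f)) +
          ∑ z : Fin n → Ω, (∏ i, μ (z i)) * Real.exp ((-t) * ∑ i, (ξ (z i) - f))) / 2 -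
          ∑ z : Fin n → Ω, ∏ i, μ (z i)) := by
          rw [← sum_add_distrib, sum_div, ← sum_sub_distrib, mul_sum]
          apply sum_congr rfl
          intro z _
          rw [neg_mul]
          ring
      _ ≤ _ := by
          rw [hprod]
          gcongr
          linarith
  have h2 : Real.exp (n * (f * t ^ 2)) - 1 ≤ f * Real.exp q := by
    have e3 : (n : ℝ) * (f * t ^ 2) = f * q := by
      rw [ht2]
      field_simp
    rw [e3]
    have h3 := convexOn_exp.2 (Set.mem_univ (q : ℝ)) (Set.mem_univ (0 : ℝ)) hf0 (sub_nonneg.mpr hf1)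
      (by ring)
    simp only [smul_eq_mul, mul_zero, add_zero, Real.exp_zero, mul_one] at h3
    linarith
  have h3 : ∑ z : Fin n → Ω, (∏ i, μ (z i)) * (t * ∑ i, (ξ (z i) - f)) ^ (2 * q) =
      (q / n : ℝ) ^ q * ∑ z : Fin n → Ω, (∏ i, μ (z i)) * (∑ i, (ξ (z i) - f)) ^ (2 * q) := by
    rw [mul_sum]
    apply sum_congr rfl
    intro z _
    rw [mul_pow, pow_mul t, ht2]
    ring
  rw [h3] at h1
  have h4 : (Nat.factorial (2 * q) : ℝ) ≤ (4 * q * q) ^ q := by
    have h := Nat.factorial_le_pow (2 * q)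
    calc (Nat.factorial (2 * q) : ℝ) ≤ ((2 * q : ℕ) : ℝ) ^ (2 * q) := by exact_mod_cast h
      _ = (4 * q * q) ^ q := by
          rw [pow_mul]
          congr 1
          push_cast
          ring
  have h5 : (q / n : ℝ) ^ q * ∑ z : Fin n → Ω, (∏ i, μ (z i)) * (∑ i, (ξ (z i) - f)) ^ (2 * q) ≤
      (q / n : ℝ) ^ q * (f * (4 * Real.exp 1 * q * n) ^ q) := by
    calc _ ≤ (Nat.factorial (2 * q) : ℝ) * (Real.exp (n * (f * t ^ 2)) - 1) := h1
      _ ≤ (Nat.factorial (2 * q) : ℝ) * (f * Real.exp q) := by gcongr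
      _ ≤ (4 * q * q) ^ q * (f * Real.exp q) := by gcongr
      _ = (q / n : ℝ) ^ q * (f * (4 * Real.exp 1 * q * n) ^ q) := by
          have e4 : Real.exp (q : ℝ) = Real.exp 1 ^ q := by
            rw [← Real.exp_nat_mul, mul_one]
          rw [e4]
          have e5 : ((4 : ℝ) * q * q) ^ q * (f * Real.exp 1 ^ q) = f * ((4 * q * q) * Real.exp 1) ^ q := by
            rw [mul_pow (4 * (q : ℝ) * q) (Real.exp 1)]
            ring
          have e6 : ((q / n : ℝ) ^ q * (f * (4 * Real.exp 1 * q * n) ^ q)) =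
              f * ((q / n) * (4 * Real.exp 1 * q * n)) ^ q := by
            rw [mul_pow (q / n : ℝ)]
            ring
          rw [e5, e6]
          congr 2
          field_simp
  have hpos : (0 : ℝ) < (q / n : ℝ) ^ q := by positivity
  exact le_of_mul_le_mul_left h5 hpos

end Pool.Agent.H89.EN
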