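import Pool.Agent.H89.EN.Ent
import Pool.Agent.H89.EN.Mom
import Pool.Agent.H89.EN.Chg

/-!
# Croot-Sisask sampling with the growth of the entropy
-/

set_option autoImplicit false
set_option linter.unusedSectionVars false
set_option linter.unusedVariables false

namespace Pool.Agent.H89.EN

open Finset Pool.Agent.K4H60.BZ
open scoped Pointwise BigOperators ComplexConjugate

variable {G : Type*} [AddCommGroup G] [Fintype G] [DecidableEq G]

theorem hm_nonneg {μ : G → ℝ} (hμ : IsProb μ) (W : Finset G) (y : G) : 0 ≤ hm μ W y :=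
  sum_nonneg fun x _ => mul_nonneg (hμ.1 x) (ind_nonneg _ _)

theorem hm_le_one {μ : G → ℝ} (hμ : IsProb μ) (W : Finset G) (y : G) : hm μ W y ≤ 1 := by
  unfold hm
  rw [← hμ.2]
  refine sum_le_sum fun x _ => ?_
  calc μ x * ind W (x + y) ≤ μ x * 1 := by
        gcongr
        · exact hμ.1 x
        · exact ind_le_one _ _
    _ = μ x := mul_one _

theorem sum_hm {μ : G → ℝ} (hμ : IsProb μ) (W : Finset G) : ∑ y, hm μ W y = W.card := by
  unfold hm
  rw [sum_comm]
  have e1 : ∀ x ∈ (univ : Finset G), ∑ y, μ x * ind W (x + y) = μ x * W.card := by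
    intro x _
    rw [← mul_sum]
    congr 1
    have := Equiv.sum_comp (Equiv.addLeft x) (fun y => ind W y)
    simp only [Equiv.coe_addLeft] at this
    rw [this]
    unfold ind
    simp
  rw [sum_congr rfl e1, ← sum_mul, hμ.2, one_mul]

theorem prod_total {Ω : Type*} [Fintype Ω] [DecidableEq Ω] {μ : Ω → ℝ} (hμ : IsProb μ) (n : ℕ) :
    ∑ z : Fin n → Ω, ∏ i, μ (z i) = 1 := by
  have := Finset.prod_univ_sum (fun _ : Fin n => (univ : Finset Ω)) (fun _ a => μ a)
  rw [Fintype.piFinset_univ] at this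
  rw [← this]
  simp [hμ.2]

theorem nrm_nonneg (p : ℝ) (f : G → ℝ) : 0 ≤ nrm p f :=
  Real.rpow_nonneg (sum_nonneg fun _ _ => Real.rpow_nonneg (abs_nonneg _) _) _

theorem nrm_mul (p : ℝ) (hp : 0 < p) (c : ℝ) (f : G → ℝ) : nrm p (fun z => c * f z) = |c| * nrm p f := by
  unfold nrm
  have e1 : ∀ z, |c * f z| ^ p = |c| ^ p * |f z| ^ p := by
    intro z
    rw [abs_mul, Real.mul_rpow (abs_nonneg _) (abs_nonneg _)]
  simp_rw [e1]
  rw [← mul_sum, Real.mul_rpow (Real.rpow_nonneg (abs_nonneg _) _)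
    (sum_nonneg fun _ _ => Real.rpow_nonneg (abs_nonneg _) _), ← Real.rpow_mul (abs_nonneg _)]
  congr 1
  rw [mul_one_div_cancel hp.ne', Real.rpow_one]

theorem cs_ent (μ : G → ℝ) (hμ : IsProb μ) (W Y S : Finset G) (hW : W.Nonempty) (hY : Y.Nonempty)
    (hS : S.Nonempty) (q : ℕ) (hq : 0 < q) (hWY : 2 * (W.card : ℝ) ≤ Real.exp q * Y.card) (n : ℕ) (η : ℝ)
    (hη : 0 < η) (hη1 : η ≤ 1) (hn : 121 * q ≤ η ^ 2 * n) (b : ℝ) (hb : ent (cv μ S) - ent μ ≤ b) :
    ∃ T ⊆ S, (S.card : ℝ) ≤ 4 * Real.exp (2 * n * b) * T.card ∧ ∀ s ∈ T, ∀ s' ∈ T,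
      nrm (2 * q) (fun y => hm μ W (y + (s - s')) - hm μ W y) ≤ η * (Y.card : ℝ) ^ (1 / (2 * q : ℝ)) := by
  classical
  have hq' : (0 : ℝ) < q := by exact_mod_cast hq
  have hnpos : (0 : ℝ) < n := by
    by_contra hcon
    have h0 : (n : ℝ) = 0 := le_antisymm (not_lt.1 hcon) (Nat.cast_nonneg n)
    rw [h0] at hn
    nlinarith
  have hqn : q ≤ n := by
    have h1 : η ^ 2 * n ≤ 1 * n := by
      gcongr
      nlinarith
    have : (q : ℝ) ≤ n := by nlinarith
    exact_mod_cast this
  have hWpos : (0 : ℝ) < W.card := by exact_mod_cast hW.card_pos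
  have hYpos : (0 : ℝ) < Y.card := by exact_mod_cast hY.card_pos
  have hSpos : (0 : ℝ) < S.card := by exact_mod_cast hS.card_pos
  obtain ⟨M, hM⟩ : ∃ M : ℝ, M = 2 * (W.card : ℝ) * (4 * Real.exp 1 * q * n) ^ q := ⟨_, rfl⟩
  have hMpos : 0 < M := by rw [hM]; positivity
  -- the error function
  obtain ⟨E, hE⟩ : ∃ E : (Fin n → G) → ℝ, E = fun z => ∑ y, (∑ i, (ind W (z i + y) - hm μ W y)) ^ (2 * q) := ⟨_, rfl⟩
  have hE0 : ∀ v, 0 ≤ E v := by
    intro v
    rw [hE]
    exact sum_nonneg fun z _ => by rw [pow_mul]; positivity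
  have hw0 : ∀ z : Fin n → G, 0 ≤ ∏ i, μ (z i) := fun z => prod_nonneg fun i _ => hμ.1 _
  have hsum : ∑ z : Fin n → G, (∏ i, μ (z i)) * E z ≤ M / 2 := by
    rw [hE]
    simp_rw [mul_sum]
    rw [sum_comm]
    have h1 : ∀ y ∈ (univ : Finset G), ∑ z : Fin n → G, (∏ i, μ (z i)) * (∑ i, (ind W (z i + y) - hm μ W y)) ^ (2 * q) ≤
        hm μ W y * (4 * Real.exp 1 * q * n) ^ q := by
      intro y _
      exact mom μ hμ (fun x => ind W (x + y)) (by
        intro x
        unfold ind
        split_ifs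
        · right; rfl
        · left; rfl) (hm μ W y) rfl n q hq hqn
    refine (sum_le_sum h1).trans (le_of_eq ?_)
    rw [← sum_mul, sum_hm hμ, hM]
    ring
  obtain ⟨good, hgood⟩ : ∃ good : Finset (Fin n → G), good = univ.filter fun v => E v ≤ M := ⟨_, rfl⟩
  have hgoodmass : 1 / 2 ≤ ∑ z ∈ good, ∏ i, μ (z i) := by
    have h1 : (∑ z ∈ univ.filter (fun v => ¬ E v ≤ M), ∏ i, μ (z i)) * M ≤ M / 2 := by
      refine le_trans ?_ hsum
      rw [sum_mul]
      refine (sum_le_sum (g := fun z => (∏ i, μ (z i)) * E z) ?_).trans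
        (sum_le_sum_of_subset_of_nonneg (filter_subset _ _) fun v _ _ => mul_nonneg (hw0 v) (hE0 v))
      intro v hv
      rw [mem_filter, not_le] at hv
      exact mul_le_mul_of_nonneg_left hv.2.le (hw0 v)
    have h2 : (∑ z ∈ good, ∏ i, μ (z i)) + ∑ z ∈ univ.filter (fun v => ¬ E v ≤ M), ∏ i, μ (z i) = 1 := by
      rw [hgood, sum_filter_add_sum_filter_not, prod_total hμ]
    have h3 : ∑ z ∈ univ.filter (fun v => ¬ E v ≤ M), ∏ i, μ (z i) ≤ 1 / 2 := by
      have : (∑ z ∈ univ.filter (fun v => ¬ E v ≤ M), ∏ i, μ (z i)) * M ≤ (1 / 2) * M := by linarith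
      exact le_of_mul_le_mul_right this hMpos
    linarith
  -- the change of measure
  obtain ⟨D, hD⟩ : ∃ D : G → ℝ, D = fun s => ∑ x, μ (x - s) * (Real.log (μ (x - s)) - Real.log (cv μ S x)) := ⟨_, rfl⟩
  have hkl : (∑ s ∈ S, D s) / S.card = ent (cv μ S) - ent μ := by
    rw [hD]
    exact kl μ hμ S hS
  obtain ⟨Es, hEs⟩ : ∃ Es : G → Finset (Fin n → G), Es = fun s => univ.filter fun z => (fun i => z i - s) ∈ good := ⟨_, rfl⟩
  have hchg : ∀ s ∈ S, Real.exp (-(2 * n * D s)) / 4 ≤ ∑ z ∈ Es s, ∏ i, cv μ S (z i) := by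
    intro s hs
    have h1 := chg (fun x => μ (x - s)) (cv μ S) (shift_prob hμ s) (cv_prob hμ hS)
      (fun x hx => cv_zero hμ hS x hx s hs) n (Es s) (by
        refine hgoodmass.trans (le_of_eq ?_)
        rw [hEs]
        refine (sum_nbij' (fun z i => z i - s) (fun z i => z i + s) ?_ ?_ ?_ ?_ ?_).symm
        · intro z hz
          rw [mem_filter] at hz
          exact hz.2
        · intro z hz
          rw [mem_filter]
          refine ⟨mem_univ _, ?_⟩
          simp only [add_sub_cancel_right]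
          exact hz
        · intro z _
          simp
        · intro z _
          simp
        · intro z _
          rfl)
    rw [hD]
    exact h1
  have hjen : (S.card : ℝ) * Real.exp (-(2 * n * b)) ≤ ∑ s ∈ S, Real.exp (-(2 * n * D s)) := by
    obtain ⟨c, hc⟩ : ∃ c : ℝ, c = ent (cv μ S) - ent μ := ⟨_, rfl⟩
    have h1 : ∀ s ∈ S, Real.exp (-(2 * n * c)) * (1 - 2 * n * (D s - c)) ≤ Real.exp (-(2 * n * D s)) := by
      intro s _
      have h2 := Real.add_one_le_exp (-(2 * n * (D s - c)))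
      calc Real.exp (-(2 * n * c)) * (1 - 2 * n * (D s - c))
          ≤ Real.exp (-(2 * n * c)) * Real.exp (-(2 * n * (D s - c))) := by
            gcongr
            linarith
        _ = _ := by
            rw [← Real.exp_add]
            congr 1
            ring
    have h2 := sum_le_sum h1
    rw [← mul_sum] at h2
    have h3 : ∑ s ∈ S, (1 - 2 * n * (D s - c)) = S.card := by
      rw [sum_sub_distrib, ← mul_sum, sum_sub_distrib, sum_const, sum_const, nsmul_eq_mul, nsmul_eq_mul]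
      rw [← hc, div_eq_iff hSpos.ne'] at hkl
      rw [hkl]
      ring
    rw [h3] at h2
    calc (S.card : ℝ) * Real.exp (-(2 * n * b)) ≤ S.card * Real.exp (-(2 * n * c)) := by
          gcongr
          rw [hc]
          exact hb
      _ = Real.exp (-(2 * n * c)) * S.card := mul_comm _ _
      _ ≤ _ := h2
  -- a good sample
  obtain ⟨T, hT⟩ : ∃ T : (Fin n → G) → Finset G, T = fun z => S.filter fun s => (fun i => z i - s) ∈ good := ⟨_, rfl⟩
  obtain ⟨w, _, hw⟩ := exists_max_image (univ : Finset (Fin n → G)) (fun z => (T z).card) univ_nonempty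
  have hcard : (S.card : ℝ) * Real.exp (-(2 * n * b)) / 4 ≤ (T w).card := by
    have h1 : ∑ s ∈ S, ∑ z ∈ Es s, ∏ i, cv μ S (z i) = ∑ z : Fin n → G, (∏ i, cv μ S (z i)) * (T z).card := by
      have e1 : ∀ s ∈ S, ∑ z ∈ Es s, ∏ i, cv μ S (z i) =
          ∑ z : Fin n → G, if (fun i => z i - s) ∈ good then ∏ i, cv μ S (z i) else 0 := by
        intro s _
        rw [hEs]
        simp only
        rw [sum_filter]
      rw [sum_congr rfl e1, sum_comm]
      apply sum_congr rfl
      intro z _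
      rw [hT]
      simp only
      rw [← sum_filter, sum_const, nsmul_eq_mul, mul_comm]
    have h2 : ∑ z : Fin n → G, (∏ i, cv μ S (z i)) * (T z).card ≤ (T w).card := by
      have hc0 : ∀ z : Fin n → G, 0 ≤ ∏ i, cv μ S (z i) := fun z => prod_nonneg fun i _ => cv_nonneg hμ S _
      calc _ ≤ ∑ z : Fin n → G, (∏ i, cv μ S (z i)) * ((T w).card : ℝ) := by
            apply sum_le_sum
            intro z _
            have := hw z (mem_univ z)
            have h3 : ((T z).card : ℝ) ≤ (T w).card := by exact_mod_cast this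
            exact mul_le_mul_of_nonneg_left h3 (hc0 z)
        _ = _ := by
            rw [← sum_mul, prod_total (cv_prob hμ hS), one_mul]
    have h3 := (sum_le_sum hchg).trans (h1.le.trans h2)
    rw [← sum_div] at h3
    linarith
  refine ⟨T w, by rw [hT]; exact filter_subset _ _, ?_, ?_⟩
  · have h1 : (S.card : ℝ) = (S.card * Real.exp (-(2 * n * b)) / 4) * (4 * Real.exp (2 * n * b)) := by
      rw [Real.exp_neg]
      have := Real.exp_pos (2 * n * b)
      field_simp
    rw [h1]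
    have h2 : 0 ≤ 4 * Real.exp (2 * n * b) := by positivity
    calc _ ≤ ((T w).card : ℝ) * (4 * Real.exp (2 * n * b)) := by gcongr
      _ = _ := by ring
  -- almost periods
  obtain ⟨F, hF⟩ : ∃ F : G → ℝ, F = fun y => ∑ i, ind W (w i + y) := ⟨_, rfl⟩
  have hshift : ∀ s ∈ T w, ∑ y, (F y - n * hm μ W (y + s)) ^ (2 * q) ≤ M := by
    intro s hs
    rw [hT] at hs
    simp only [mem_filter] at hs
    have h1 := hs.2
    rw [hgood, mem_filter] at h1
    have h2 := h1.2
    rw [hE] at h2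
    simp only at h2
    refine le_trans (le_of_eq ?_) h2
    refine Eq.trans ?_ (Equiv.sum_comp (Equiv.addRight s) _)
    apply sum_congr rfl
    intro z _
    congr 1
    simp only [Equiv.coe_addRight]
    rw [sum_sub_distrib, sum_const, card_univ, Fintype.card_fin, nsmul_eq_mul, hF]
    congr 1
    apply sum_congr rfl
    intro i _
    congr 1
    abel
  have hMle : M ≤ (Y.card : ℝ) * (η * n / 2) ^ (2 * q) := by
    have e1 : Real.exp (q : ℝ) = (Real.exp 1) ^ q := by rw [← Real.exp_nat_mul, mul_one]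
    have e2 : (Real.exp 1) ^ 2 ≤ 7.4 := by
      have := Real.exp_one_lt_d9
      have h0 := Real.exp_pos 1
      nlinarith
    calc M = 2 * (W.card : ℝ) * (4 * Real.exp 1 * q * n) ^ q := hM
      _ ≤ (Real.exp q * Y.card) * (4 * Real.exp 1 * q * n) ^ q := by gcongr
      _ = Y.card * (4 * (Real.exp 1) ^ 2 * q * n) ^ q := by
          rw [e1, mul_comm ((Real.exp 1) ^ q), mul_assoc, ← mul_pow]
          congr 2
          ring
      _ ≤ Y.card * ((η * n / 2) ^ 2) ^ q := by
          gcongr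
          have h3 : 4 * (Real.exp 1) ^ 2 * q * n ≤ (121 / 4) * q * n := by
            have : 0 ≤ (q : ℝ) * n := by positivity
            nlinarith
          have h4 : (121 * q) * n ≤ (η ^ 2 * n) * n := by gcongr
          nlinarith
      _ = _ := by rw [← pow_mul]
  have hnM : M ^ (1 / (2 * q : ℝ)) ≤ (η * n / 2) * (Y.card : ℝ) ^ (1 / (2 * q : ℝ)) := by
    calc M ^ (1 / (2 * q : ℝ)) ≤ ((Y.card : ℝ) * (η * n / 2) ^ (2 * q)) ^ (1 / (2 * q : ℝ)) := by
          gcongr
      _ = (Y.card : ℝ) ^ (1 / (2 * q : ℝ)) * ((η * n / 2) ^ (2 * q)) ^ (1 / (2 * q : ℝ)) := by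
          rw [Real.mul_rpow (by positivity) (by positivity)]
      _ = (Y.card : ℝ) ^ (1 / (2 * q : ℝ)) * (η * n / 2) := by
          congr 1
          rw [← Real.rpow_natCast, ← Real.rpow_mul (by positivity)]
          have : ((2 * q : ℕ) : ℝ) * (1 / (2 * q : ℝ)) = 1 := by push_cast; field_simp
          rw [this, Real.rpow_one]
      _ = _ := mul_comm _ _
  intro s hs s' hs'
  have hp : (1 : ℝ) ≤ 2 * q := by
    have : (1 : ℝ) ≤ q := by exact_mod_cast hq
    linarith
  have h1 : nrm (2 * q) (fun z => n * (hm μ W (z + (s - s')) - hm μ W z)) ≤ 2 * M ^ (1 / (2 * q : ℝ)) := by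
    rw [← nrm_shift (2 * q) (fun z => n * (hm μ W (z + (s - s')) - hm μ W z)) s']
    have e1 : (fun z => (n : ℝ) * (hm μ W (z + s' + (s - s')) - hm μ W (z + s'))) =
        fun z => (- (F z - n * hm μ W (z + s))) + (F z - n * hm μ W (z + s')) := by
      funext z
      have : z + s' + (s - s') = z + s := by abel
      rw [this]
      ring
    rw [e1]
    refine (nrm_add _ hp (fun z => - (F z - n * hm μ W (z + s))) (fun z => F z - n * hm μ W (z + s'))).trans ?_
    rw [nrm_neg _ (fun z => F z - n * hm μ W (z + s))]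
    have e2 := nrm_le q hq _ M (hshift s hs)
    have e3 := nrm_le q hq _ M (hshift s' hs')
    linarith
  rw [nrm_mul _ (by positivity), abs_of_pos hnpos] at h1
  have h2 : (n : ℝ) * nrm (2 * q) (fun z => hm μ W (z + (s - s')) - hm μ W z) ≤
      n * (η * (Y.card : ℝ) ^ (1 / (2 * q : ℝ))) := by
    refine h1.trans ?_
    calc 2 * M ^ (1 / (2 * q : ℝ)) ≤ 2 * ((η * n / 2) * (Y.card : ℝ) ^ (1 / (2 * q : ℝ))) := by gcongr
      _ = _ := by ring
  exact le_of_mul_le_mul_left h2 hnpos

end Pool.Agent.H89.EN
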