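import Pool.Graph.R_pool_sql_team_seeded_c8625f6e.K4H60.BZ.Core

/-!
# Probability measures on a finite abelian group: definitions
-/

set_option autoImplicit false
set_option linter.unusedSectionVars false

namespace Pool.Agent.H89.EN

open Finset Pool.Agent.K4H60.BZ
open scoped Pointwise BigOperators ComplexConjugate

/-- probability measure on a finite type -/
def IsProb {Ω : Type*} [Fintype Ω] (μ : Ω → ℝ) : Prop := (∀ x, 0 ≤ μ x) ∧ ∑ x, μ x = 1

variable {G : Type*} [AddCommGroup G] [Fintype G] [DecidableEq G]

/-- the convolution of `μ` and the uniform measure on `S` -/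
noncomputable def cv (μ : G → ℝ) (S : Finset G) : G → ℝ := fun x => (∑ s ∈ S, μ (x - s)) / S.card

/-- the entropy -/
noncomputable def ent (μ : G → ℝ) : ℝ := ∑ x, Real.negMulLog (μ x)

/-- the probability that `z + y ∈ W`, where `z` has the distribution `μ` -/
noncomputable def hm (μ : G → ℝ) (W : Finset G) (y : G) : ℝ := ∑ x, μ x * ind W (x + y)

/-- the uniform measure -/
noncomputable def uni (L : Finset G) : G → ℝ := fun x => if x ∈ L then 1 / (L.card : ℝ) else 0

end Pool.Agent.H89.EN
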