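import Pool.Agent.H89.EN.Defs

/-!
# Entropy and convolution with uniform measures
-/

set_option autoImplicit false
set_option linter.unusedSectionVars false

namespace Pool.Agent.H89.EN

open Finset Pool.Agent.K4H60.BZ
open scoped Pointwise BigOperators ComplexConjugate

/-- Gibbs' inequality -/
theorem gibbs {Ω : Type*} [Fintype Ω] (μ ν : Ω → ℝ) (hμ : IsProb μ) (hν0 : ∀ x, 0 ≤ ν x) (hν1 : ∑ x, ν x ≤ 1)
    (habs : ∀ x, ν x = 0 → μ x = 0) : 0 ≤ ∑ x, μ x * (Real.log (μ x) - Real.log (ν x)) := by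
  have h1 : ∀ x, μ x - ν x ≤ μ x * (Real.log (μ x) - Real.log (ν x)) := by
    intro x
    rcases (hμ.1 x).eq_or_lt with h | h
    · rw [← h, zero_mul, zero_sub]
      linarith [hν0 x]
    · have hν : 0 < ν x := lt_of_le_of_ne (hν0 x) fun h0 => h.ne' (habs x h0.symm)
      have h2 := Real.log_le_sub_one_of_pos (div_pos hν h)
      rw [Real.log_div hν.ne' h.ne'] at h2
      have h3 : μ x * (Real.log (ν x) - Real.log (μ x)) ≤ μ x * (ν x / μ x - 1) := by gcongr
      have h4 : μ x * (ν x / μ x - 1) = ν x - μ x := by field_simp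
      linarith
  have h2 := sum_le_sum fun x (_ : x ∈ (univ : Finset Ω)) => h1 x
  rw [sum_sub_distrib, hμ.2] at h2
  linarith

variable {G : Type*} [AddCommGroup G] [Fintype G] [DecidableEq G]

theorem cv_nonneg {μ : G → ℝ} (hμ : IsProb μ) (S : Finset G) (x : G) : 0 ≤ cv μ S x :=
  div_nonneg (sum_nonneg fun s _ => hμ.1 _) (Nat.cast_nonneg _)

theorem sum_shift (f : G → ℝ) (s : G) : ∑ x, f (x - s) = ∑ x, f x :=
  Equiv.sum_comp (Equiv.subRight s) f

theorem shift_prob {μ : G → ℝ} (hμ : IsProb μ) (s : G) : IsProb (fun x => μ (x - s)) :=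
  ⟨fun x => hμ.1 _, by rw [sum_shift μ s]; exact hμ.2⟩

theorem cv_prob {μ : G → ℝ} (hμ : IsProb μ) {S : Finset G} (hS : S.Nonempty) : IsProb (cv μ S) := by
  refine ⟨cv_nonneg hμ S, ?_⟩
  unfold cv
  rw [← sum_div, sum_comm]
  have : ∀ s ∈ S, ∑ x, μ (x - s) = 1 := by
    intro s _
    rw [sum_shift μ s]
    exact hμ.2
  rw [sum_congr rfl this, sum_const, nsmul_eq_mul, mul_one]
  exact div_self (by exact_mod_cast hS.card_pos.ne')

theorem cv_zero {μ : G → ℝ} (hμ : IsProb μ) {S : Finset G} (hS : S.Nonempty) (x : G) (h : cv μ S x = 0) :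
    ∀ s ∈ S, μ (x - s) = 0 := by
  unfold cv at h
  have hSpos : (S.card : ℝ) ≠ 0 := by exact_mod_cast hS.card_pos.ne'
  rw [div_eq_zero_iff, or_iff_left hSpos, sum_eq_zero_iff_of_nonneg fun s _ => hμ.1 _] at h
  exact h

/-- the mean of the divergences is the growth of the entropy -/
theorem kl (μ : G → ℝ) (hμ : IsProb μ) (S : Finset G) (hS : S.Nonempty) :
    (∑ s ∈ S, ∑ x, μ (x - s) * (Real.log (μ (x - s)) - Real.log (cv μ S x))) / S.card = ent (cv μ S) - ent μ := by
  have hSpos : (0 : ℝ) < S.card := by exact_mod_cast hS.card_pos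
  have e1 : ∀ s ∈ S, ∑ x, μ (x - s) * (Real.log (μ (x - s)) - Real.log (cv μ S x)) =
      - ent μ - ∑ x, μ (x - s) * Real.log (cv μ S x) := by
    intro s _
    simp_rw [mul_sub]
    rw [sum_sub_distrib, sum_shift (fun x => μ x * Real.log (μ x)) s]
    congr 1
    unfold ent Real.negMulLog
    rw [← sum_neg_distrib]
    apply sum_congr rfl
    intro x _
    ring
  rw [sum_congr rfl e1, sum_sub_distrib, sum_const, nsmul_eq_mul, sum_comm, sub_div,
    mul_div_cancel_left₀ _ hSpos.ne']
  have e2 : (∑ x, ∑ s ∈ S, μ (x - s) * Real.log (cv μ S x)) / S.card = - ent (cv μ S) := by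
    unfold ent Real.negMulLog
    rw [sum_div, ← sum_neg_distrib]
    apply sum_congr rfl
    intro x _
    rw [← sum_mul, mul_div_right_comm]
    change cv μ S x * _ = _
    ring
  rw [e2]
  ring

theorem kl_nonneg (μ : G → ℝ) (hμ : IsProb μ) (S : Finset G) (hS : S.Nonempty) (s : G) (hs : s ∈ S) :
    0 ≤ ∑ x, μ (x - s) * (Real.log (μ (x - s)) - Real.log (cv μ S x)) :=
  gibbs (fun x => μ (x - s)) (cv μ S) (shift_prob hμ s) (cv_nonneg hμ S) (cv_prob hμ hS).2.le
    (fun x hx => cv_zero hμ hS x hx s hs)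

theorem ent_le_cv (μ : G → ℝ) (hμ : IsProb μ) (S : Finset G) (hS : S.Nonempty) : ent μ ≤ ent (cv μ S) := by
  have h1 := kl μ hμ S hS
  have h2 : 0 ≤ (∑ s ∈ S, ∑ x, μ (x - s) * (Real.log (μ (x - s)) - Real.log (cv μ S x))) / S.card :=
    div_nonneg (sum_nonneg fun s hs => kl_nonneg μ hμ S hS s hs) (Nat.cast_nonneg _)
  linarith

theorem uni_prob {L : Finset G} (hL : L.Nonempty) : IsProb (uni L) := by
  have hLpos : (0 : ℝ) < L.card := by exact_mod_cast hL.card_pos
  refine ⟨fun x => ?_, ?_⟩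
  · unfold uni
    split_ifs
    · positivity
    · exact le_rfl
  · unfold uni
    rw [sum_ite_mem, univ_inter, sum_const, nsmul_eq_mul]
    field_simp

theorem ent_le_log (μ : G → ℝ) (hμ : IsProb μ) (X : Finset G) (hX : ∀ x, μ x ≠ 0 → x ∈ X) :
    ent μ ≤ Real.log X.card := by
  have hXne : X.Nonempty := by
    by_contra hcon
    rw [not_nonempty_iff_eq_empty] at hcon
    have : ∀ x, μ x = 0 := by
      intro x
      by_contra h
      have := hX x h
      rw [hcon] at this
      exact notMem_empty x this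
    have h1 := hμ.2
    simp [this] at h1
  have hXpos : (0 : ℝ) < X.card := by exact_mod_cast hXne.card_pos
  have h1 := gibbs μ (uni X) hμ (uni_prob hXne).1 (uni_prob hXne).2.le (by
    intro x hx
    by_contra h
    have h2 := hX x h
    unfold uni at hx
    rw [if_pos h2] at hx
    have : 0 < 1 / (X.card : ℝ) := by positivity
    exact this.ne' hx)
  have e1 : ∀ x ∈ (univ : Finset G), μ x * (Real.log (μ x) - Real.log (uni X x)) =
      μ x * Real.log X.card - Real.negMulLog (μ x) := by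
    intro x _
    unfold Real.negMulLog
    by_cases h : μ x = 0
    · rw [h]; simp
    · have h2 := hX x h
      unfold uni
      rw [if_pos h2, one_div, Real.log_inv]
      ring
  rw [sum_congr rfl e1, sum_sub_distrib, ← sum_mul, hμ.2, one_mul] at h1
  unfold ent
  linarith

theorem ent_uni {L : Finset G} (hL : L.Nonempty) : ent (uni L) = Real.log L.card := by
  have hLpos : (0 : ℝ) < L.card := by exact_mod_cast hL.card_pos
  unfold ent
  have e1 : ∀ x ∈ (univ : Finset G), Real.negMulLog (uni L x) =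
      if x ∈ L then 1 / (L.card : ℝ) * Real.log L.card else 0 := by
    intro x _
    unfold uni Real.negMulLog
    split_ifs
    · rw [one_div, Real.log_inv]
      ring
    · simp
  rw [sum_congr rfl e1, sum_ite_mem, univ_inter, sum_const, nsmul_eq_mul]
  field_simp

/-- the iterated convolution -/
noncomputable def cvN (μ : G → ℝ) (S : Finset G) : ℕ → (G → ℝ)
  | 0 => μ
  | i + 1 => cv (cvN μ S i) S

theorem cvN_prob {μ : G → ℝ} (hμ : IsProb μ) {S : Finset G} (hS : S.Nonempty) (i : ℕ) : IsProb (cvN μ S i) := by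
  induction i with
  | zero => exact hμ
  | succ i ih => exact cv_prob ih hS

theorem ent_cvN {μ : G → ℝ} (hμ : IsProb μ) {S : Finset G} (hS : S.Nonempty) (i : ℕ) : ent μ ≤ ent (cvN μ S i) := by
  induction i with
  | zero => exact le_rfl
  | succ i ih => exact ih.trans (ent_le_cv _ (cvN_prob hμ hS i) S hS)

/-- some step has small growth -/
theorem pigeon (μ : G → ℝ) (S : Finset G) (M : ℕ) (hM : 0 < M) (b : ℝ) (hb : ent (cvN μ S M) - ent μ ≤ b) :
    ∃ i < M, ent (cv (cvN μ S i) S) - ent (cvN μ S i) ≤ b / M := by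
  have hMpos : (0 : ℝ) < M := by exact_mod_cast hM
  by_contra hcon
  push Not at hcon
  have h1 : ∀ j ≤ M, j * (b / M) ≤ ent (cvN μ S j) - ent μ := by
    intro j
    induction j with
    | zero =>
      intro _
      simp [cvN]
    | succ j ih =>
      intro hj
      have h2 := ih (by omega)
      have h3 := hcon j (by omega)
      push_cast
      change _ ≤ ent (cv (cvN μ S j) S) - ent μ
      linarith
  have h2 := hcon (M - 1) (by omega)
  have h3 := h1 (M - 1) (by omega)
  have h4 : cvN μ S M = cv (cvN μ S (M - 1)) S := by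
    obtain ⟨k, rfl⟩ : ∃ k, M = k + 1 := ⟨M - 1, by omega⟩
    rfl
  rw [h4] at hb
  have h5 : ((M - 1 : ℕ) : ℝ) * (b / M) + b / M = b := by
    rw [Nat.cast_sub (by omega)]
    field_simp
    push_cast
    ring
  linarith

theorem cvN_supp {μ : G → ℝ} (S : Finset G) (X : Finset G) (hX : ∀ x, μ x ≠ 0 → x ∈ X) (i : ℕ) :
    ∀ x, cvN μ S i x ≠ 0 → ∃ y ∈ X, ∃ v : Fin i → G, (∀ j, v j ∈ S) ∧ x = y + ∑ j, v j := by
  induction i with
  | zero =>
    intro x hx
    exact ⟨x, hX x hx, fun j => j.elim0, fun j => j.elim0, by simp⟩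
  | succ i ih =>
    intro x hx
    have h1 : ∃ s ∈ S, cvN μ S i (x - s) ≠ 0 := by
      by_contra hcon
      push Not at hcon
      apply hx
      change (∑ s ∈ S, cvN μ S i (x - s)) / S.card = 0
      rw [sum_eq_zero hcon, zero_div]
    obtain ⟨s, hs, h2⟩ := h1
    obtain ⟨y, hy, v, hv, h3⟩ := ih _ h2
    refine ⟨y, hy, Fin.snoc v s, ?_, ?_⟩
    · intro j
      refine Fin.lastCases ?_ (fun j => ?_) j
      · rw [Fin.snoc_last]; exact hs
      · rw [Fin.snoc_castSucc]; exact hv j
    · rw [Fin.sum_univ_castSucc, Fin.snoc_last]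
      simp only [Fin.snoc_castSucc]
      rw [← add_assoc, ← h3]
      abel

end Pool.Agent.H89.EN
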