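import Pool.Agent.H89.EN.Rec
import Pool.Agent.H89.EN.Core
import Pool.Graph.R_pool_sql_team_seeded_c8625f6e.K4H60.BZ.ZN

/-!
# The Bohr set
-/

set_option autoImplicit false
set_option linter.unusedSectionVars false
set_option linter.unusedVariables false

namespace Pool.Agent.H89.EN

open Finset Pool.Agent.K4H60.BZ
open scoped Pointwise BigOperators ComplexConjugate

section general

variable {G : Type*} [AddCommGroup G] [Fintype G] [DecidableEq G]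

/-- **The main theorem** for a finite abelian group. -/
theorem main (L Y S : Finset G) (hL : L.Nonempty) (hY : Y.Nonempty) (hS : S.Nonempty) (p b : ℝ) (hp : 0 ≤ p)
    (hb : 0 ≤ b) (h1 : ((L - Y).card : ℝ) ≤ Real.exp p * Y.card)
    (h2 : Real.log (L + S).card ≤ Real.log L.card + b)
    (h3 : ∀ j : ℕ, (2 : ℝ) ^ j ≤ 8 * (1 + p) → Real.log (L + j • ((L - Y) - (L - Y))).card ≤ Real.log L.card + b) :
    ∃ Λ : Finset (AddChar G ℂ),
      (Λ.card : ℝ) ≤ 8 * (Real.log (Fintype.card G / S.card) + 2 * 10 ^ 7 * ((1 + p) ^ 2 * (1 + b))) ∧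
      ∀ x : G, (∀ ψ ∈ Λ, ‖ψ x - 1‖ ≤ 1 / (216 * ((Λ.card : ℝ) + 1) ^ 3)) →
        ∃ w₁ ∈ L - Y, ∃ w₂ ∈ L - Y, x = w₁ - w₂ := by
  have hYpos : (0 : ℝ) < Y.card := by exact_mod_cast hY.card_pos
  -- parameters
  obtain ⟨q, hq⟩ : ∃ q : ℕ, q = ⌈1 + p⌉₊ := ⟨_, rfl⟩
  obtain ⟨m, hm⟩ : ∃ m : ℕ, m = ⌈3 + p / 2⌉₊ := ⟨_, rfl⟩
  have hq1 : 1 + p ≤ q := by rw [hq]; exact Nat.le_ceil _
  have hq2 : (q : ℝ) ≤ 2 * (1 + p) := by
    rw [hq]
    have := Nat.ceil_lt_add_one (show 0 ≤ 1 + p by positivity)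
    linarith
  have hm1 : 3 + p / 2 ≤ m := by rw [hm]; exact Nat.le_ceil _
  have hm2 : (m : ℝ) ≤ 4 * (1 + p) := by
    rw [hm]
    have := Nat.ceil_lt_add_one (show 0 ≤ 3 + p / 2 by positivity)
    linarith
  have hq0 : 0 < q := by
    have : (0 : ℝ) < q := by linarith
    exact_mod_cast this
  have hm0 : 1 < m := by
    have : (1 : ℝ) < m := by linarith
    exact_mod_cast this
  obtain ⟨J, hJ⟩ : ∃ J : ℕ, J = Nat.clog 2 m := ⟨_, rfl⟩
  have hJ1 : (m : ℝ) ≤ 2 ^ J := by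
    rw [hJ]
    exact_mod_cast Nat.le_pow_clog (by norm_num) m
  have hJ2 : (2 : ℝ) ^ J ≤ 8 * (1 + p) := by
    have h4 : 2 ^ J ≤ 2 * m := by
      have h5 := Nat.pow_pred_clog_lt_self (b := 2) (by norm_num) hm0
      rw [← hJ] at h5
      have h6 : 0 < J := by
        rw [hJ]
        exact Nat.clog_pos (by norm_num) (by omega)
      obtain ⟨i, rfl⟩ : ∃ i, J = i + 1 := ⟨J - 1, by omega⟩
      rw [pow_succ]
      simp only [Nat.pred_eq_sub_one, Nat.add_sub_cancel] at h5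
      omega
    have h5 : (2 : ℝ) ^ J ≤ 2 * m := by exact_mod_cast h4
    linarith
  have hWY : 2 * ((L - Y).card : ℝ) ≤ Real.exp q * Y.card := by
    calc 2 * ((L - Y).card : ℝ) ≤ 2 * (Real.exp p * Y.card) := by gcongr
      _ ≤ (Real.exp 1 * Real.exp p) * Y.card := by
        have : (2 : ℝ) ≤ Real.exp 1 := by
          have h1 := Real.exp_one_gt_d9
          linarith
        have h3 : 2 * (Real.exp p * Y.card) = (2 * Real.exp p) * Y.card := by ring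
        rw [h3]
        gcongr
      _ ≤ Real.exp q * Y.card := by
        rw [← Real.exp_add]
        gcongr
  have c2 : 32 ^ 2 * ((L - Y).card : ℝ) ≤ 16 ^ m * Y.card := by
    have e2 : (2 : ℝ) ≤ Real.log 16 := by
      rw [Real.le_log_iff_exp_le (by norm_num)]
      have h1 := Real.exp_one_lt_d9
      have h2 : Real.exp 2 = Real.exp 1 * Real.exp 1 := by
        rw [← Real.exp_add]; norm_num
      have h3 := Real.exp_pos 1
      rw [h2]
      nlinarith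
    have e3 : 16 ^ 3 * Real.exp p ≤ (16 : ℝ) ^ m := by
      have e1 : (16 : ℝ) ^ m = Real.exp (m * Real.log 16) := by
        rw [mul_comm, Real.exp_mul, Real.exp_log (by norm_num), Real.rpow_natCast]
      have e4 : (16 : ℝ) ^ 3 = Real.exp (3 * Real.log 16) := by
        rw [mul_comm, Real.exp_mul, Real.exp_log (by norm_num)]
        norm_num
      rw [e1, e4, ← Real.exp_add]
      apply Real.exp_le_exp.2
      have h5 : (3 + p / 2) * Real.log 16 ≤ m * Real.log 16 := by gcongr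
      have h6 : p ≤ p / 2 * Real.log 16 := by nlinarith
      linarith
    calc 32 ^ 2 * ((L - Y).card : ℝ) ≤ 32 ^ 2 * (Real.exp p * Y.card) := by
          gcongr
      _ ≤ (16 ^ 3 * Real.exp p) * Y.card := by
          have : 0 ≤ Real.exp p * Y.card := by positivity
          nlinarith
      _ ≤ 16 ^ m * Y.card := by gcongr
  have hrec := recursion L Y S hL hY hS q hq0 hWY b hb h2 J (fun j hj => h3 j (by
    refine le_trans ?_ hJ2
    exact pow_le_pow_right₀ (by norm_num) hj)) J le_rfl (1 / 8) (by norm_num) le_rfl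
  obtain ⟨μ, T, hμ, hsupp, hT, hent, hap, hdr, hc⟩ := hrec
  have hp' : (1 : ℝ) ≤ 2 * q := by linarith
  obtain ⟨K, hK⟩ : ∃ K : ℝ, K = (Y.card : ℝ) ^ (1 / (2 * q : ℝ)) := ⟨_, rfl⟩
  have hKpos : 0 < K := by rw [hK]; positivity
  rw [← hK] at hap hdr
  obtain ⟨Λ, hΛ, hmain⟩ := core μ hμ (L - Y) Y T hY hT m c2 (by
    intro s s' hs hs'
    have h4 := ap_sum μ (L - Y) (2 * q) hp' (1 / 8 / 2 ^ J * K) m (fun i => s i - s' i)
      (fun i => hap _ (hs i) _ (hs' i))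
    have h5 : (m : ℝ) * (1 / 8 / 2 ^ J * K) ≤ 1 / 8 * K := by
      have h6 : (m : ℝ) * (1 / 8 / 2 ^ J) ≤ 1 / 8 := by
        rw [div_div, mul_one_div, div_le_div_iff₀ (by positivity) (by norm_num)]
        linarith
      calc (m : ℝ) * (1 / 8 / 2 ^ J * K) = (m : ℝ) * (1 / 8 / 2 ^ J) * K := by ring
        _ ≤ 1 / 8 * K := by gcongr
    have h6 := avg_low L Y hL hY q hq0 μ (∑ i, (s i - s' i)) (1 / 8) (1 / 8) (by norm_num) (by norm_num) (by
      rw [← hK]; exact h4.trans h5) (by rw [← hK]; exact hdr)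
    refine le_trans (le_of_eq ?_) h6
    norm_num)
  refine ⟨Λ, ?_, hmain⟩
  refine hΛ.trans ?_
  have h7 : 10 ^ 4 * ((q : ℝ) * (1 + b) * 2 ^ J / (1 / 8) ^ 2) ≤ 2 * 10 ^ 7 * ((1 + p) ^ 2 * (1 + b)) := by
    have h8 : (q : ℝ) * (1 + b) * 2 ^ J ≤ (2 * (1 + p)) * (1 + b) * (8 * (1 + p)) := by gcongr
    have h9 : 0 ≤ (1 + p) ^ 2 * (1 + b) := by positivity
    have h10 : 10 ^ 4 * ((q : ℝ) * (1 + b) * 2 ^ J / (1 / 8) ^ 2) = 640000 * ((q : ℝ) * (1 + b) * 2 ^ J) := by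
      norm_num
      ring
    rw [h10]
    nlinarith
  linarith

end general

/-- **The main theorem** for `ℤ/N`, with a large radius. -/
theorem main_ZN {N : ℕ} [NeZero N] (L Y S : Finset (ZMod N)) (hL : L.Nonempty) (hY : Y.Nonempty) (hS : S.Nonempty)
    (p b : ℝ) (hp : 0 ≤ p)
    (hb : 0 ≤ b) (h1 : ((L - Y).card : ℝ) ≤ Real.exp p * Y.card)
    (h2 : Real.log (L + S).card ≤ Real.log L.card + b)
    (h3 : ∀ j : ℕ, (2 : ℝ) ^ j ≤ 8 * (1 + p) → Real.log (L + j • ((L - Y) - (L - Y))).card ≤ Real.log L.card + b) :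
    ∃ Γ : Finset (ZMod N),
      (Γ.card : ℝ) ≤ 2 * 10 ^ 9 * (Real.log (N / S.card) + (1 + p) ^ 2 * (1 + b)) ∧
      ∀ x : ZMod N, (∀ γ ∈ Γ, nint (((γ * x).val : ℝ) / N) ≤ 1 / (10 ^ 4 * (1 + Real.log (N / S.card) + p + b))) →
        ∃ w₁ ∈ L - Y, ∃ w₂ ∈ L - Y, x = w₁ - w₂ := by
  obtain ⟨Λ, hΛ, hmain⟩ := main L Y S hL hY hS p b hp hb h1 h2 h3
  rw [ZMod.card] at hΛ
  obtain ⟨s, hs⟩ : ∃ s : ℝ, s = Real.log ((N : ℝ) / S.card) := ⟨_, rfl⟩
  have hs0 : 0 ≤ s := by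
    rw [hs]
    apply Real.log_nonneg
    rw [le_div_iff₀ (by exact_mod_cast hS.card_pos), one_mul]
    have := card_le_univ S
    rw [ZMod.card] at this
    exact_mod_cast this
  rw [← hs] at hΛ ⊢
  obtain ⟨v, hv⟩ : ∃ v : ℝ, v = 1 + s + p + b := ⟨_, rfl⟩
  have hv1 : 1 ≤ v := by rw [hv]; linarith
  rw [← hv]
  obtain ⟨R, hR⟩ : ∃ R : ℕ, R = ⌈10 ^ 3 * v⌉₊ := ⟨_, rfl⟩
  have hR1 : 10 ^ 3 * v ≤ R := by rw [hR]; exact Nat.le_ceil _
  have hR2 : (R : ℝ) ≤ 10 ^ 3 * v + 1 := by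
    rw [hR]
    exact (Nat.ceil_lt_add_one (by positivity)).le
  have hR0 : 1 ≤ R := by
    have : (1 : ℝ) ≤ R := by linarith
    exact_mod_cast this
  have hRpos : (0 : ℝ) < R := by exact_mod_cast hR0
  obtain ⟨Γ, hΓ, htr⟩ := transfer Λ R 9 hR0
  have hΛv : (Λ.card : ℝ) + 1 ≤ 2 * 10 ^ 8 * v ^ 3 := by
    have h4 : s + (1 + p) ^ 2 * (1 + b) ≤ v ^ 3 := by
      have h5 : 1 + p ≤ v - s - b := by linarith
      have h6 : v ^ 3 = (1 + s + p + b) ^ 3 := by rw [hv]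
      rw [h6]
      have : 0 ≤ s * p := by positivity
      have : 0 ≤ s * b := by positivity
      have : 0 ≤ p * b := by positivity
      have : 0 ≤ s ^ 2 := by positivity
      have : 0 ≤ b ^ 2 := by positivity
      have : 0 ≤ p ^ 2 := by positivity
      have e : (1 + s + p + b) ^ 3 - s - (1 + p) ^ 2 * (1 + b) = 2 * s + 2 * b + p + 2 * p ^ 2 + p ^ 3 + s ^ 3 + b ^ 3
          + 3 * s ^ 2 + 3 * b ^ 2 + 6 * s * p + 6 * s * b + 4 * p * b + 3 * s ^ 2 * p + 3 * s ^ 2 * b + 3 * s * p ^ 2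
          + 3 * s * b ^ 2 + 2 * p ^ 2 * b + 3 * p * b ^ 2 + 6 * s * p * b := by ring
      have e2 : 0 ≤ 2 * s + 2 * b + p + 2 * p ^ 2 + p ^ 3 + s ^ 3 + b ^ 3
          + 3 * s ^ 2 + 3 * b ^ 2 + 6 * s * p + 6 * s * b + 4 * p * b + 3 * s ^ 2 * p + 3 * s ^ 2 * b + 3 * s * p ^ 2
          + 3 * s * b ^ 2 + 2 * p ^ 2 * b + 3 * p * b ^ 2 + 6 * s * p * b := by positivity
      linarith
    have h5 : (Λ.card : ℝ) ≤ 16 * 10 ^ 7 * (s + (1 + p) ^ 2 * (1 + b)) := by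
      refine hΛ.trans ?_
      nlinarith
    have h6 : 1 ≤ v ^ 3 := one_le_pow₀ hv1
    nlinarith
  refine ⟨Γ, ?_, ?_⟩
  · have h4 : (Γ.card : ℝ) ≤ 10 * Λ.card := by
      have : ((Γ.card : ℕ) : ℝ) ≤ (((9 + 1) * Λ.card : ℕ) : ℝ) := by exact_mod_cast hΓ
      push_cast at this
      linarith
    have h5 : 0 ≤ (1 + p) ^ 2 * (1 + b) := by positivity
    nlinarith
  · intro x hx
    apply hmain
    intro ψ hψ
    refine (htr x ?_ ψ hψ).trans ?_
    · intro γ hγ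
      refine (hx γ hγ).trans ?_
      apply one_div_le_one_div_of_le (by positivity)
      linarith
    · have hpi : Real.pi ≤ 4 := Real.pi_le_four
      have h4 : 216 * ((Λ.card : ℝ) + 1) ^ 3 ≤ (R : ℝ) ^ 10 / 2 := by
        calc 216 * ((Λ.card : ℝ) + 1) ^ 3 ≤ 216 * (2 * 10 ^ 8 * v ^ 3) ^ 3 := by gcongr
          _ = 1728 * 10 ^ 24 * v ^ 9 := by ring
          _ ≤ (10 ^ 3 * v) ^ 10 / 2 := by
            have h5 : v ^ 9 ≤ v ^ 10 := pow_le_pow_right₀ hv1 (by norm_num)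
            have h6 : 0 ≤ v ^ 10 := by positivity
            nlinarith
          _ ≤ (R : ℝ) ^ 10 / 2 := by gcongr
      have h5 : 2 * Real.pi * (1 / (4 * (R : ℝ) ^ (9 + 1))) ≤ 2 / (R : ℝ) ^ 10 := by
        have e : 2 * Real.pi * (1 / (4 * (R : ℝ) ^ (9 + 1))) = (Real.pi / 2) / (R : ℝ) ^ 10 := by
          norm_num
          ring
        rw [e]
        gcongr
        linarith
      refine h5.trans ?_
      rw [div_le_div_iff₀ (by positivity) (by positivity)]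
      linarith

end Pool.Agent.H89.EN
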