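import Pool.Agent.H89.EN.Cs

/-!
# The iteration over the dyadic scales
-/

set_option autoImplicit false
set_option linter.unusedSectionVars false
set_option linter.unusedVariables false

namespace Pool.Agent.H89.EN

open Finset Pool.Agent.K4H60.BZ
open scoped Pointwise BigOperators ComplexConjugate

variable {G : Type*} [AddCommGroup G] [Fintype G] [DecidableEq G]

theorem hm_cv (μ : G → ℝ) (S W : Finset G) (y : G) : hm (cv μ S) W y = (∑ s ∈ S, hm μ W (y + s)) / S.card := by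
  unfold hm cv
  have e1 : ∀ x ∈ (univ : Finset G), (∑ s ∈ S, μ (x - s)) / S.card * ind W (x + y) =
      (∑ s ∈ S, μ (x - s) * ind W (x + y)) / S.card := by
    intro x _
    rw [div_mul_eq_mul_div, sum_mul]
  rw [sum_congr rfl e1, ← sum_div, sum_comm]
  congr 1
  apply sum_congr rfl
  intro s _
  rw [← sum_shift (fun x => μ x * ind W (x + (y + s))) s]
  apply sum_congr rfl
  intro x _
  congr 2
  abel

theorem nrm_zero (p : ℝ) (hp : 0 < p) : nrm p (fun _ : G => (0 : ℝ)) = 0 := by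
  unfold nrm
  simp only [abs_zero, Real.zero_rpow hp.ne', sum_const_zero]
  rw [Real.zero_rpow]
  positivity

theorem nrm_sum {ι : Type*} (p : ℝ) (hp : 1 ≤ p) (S : Finset ι) (g : ι → G → ℝ) :
    nrm p (fun y => ∑ s ∈ S, g s y) ≤ ∑ s ∈ S, nrm p (g s) := by
  classical
  induction S using Finset.induction_on with
  | empty =>
    simp only [sum_empty]
    rw [nrm_zero p (by linarith)]
  | insert a s ha ih =>
    rw [sum_insert ha]
    have e1 : (fun y => ∑ i ∈ insert a s, g i y) = fun y => g a y + ∑ i ∈ s, g i y := by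
      funext y
      rw [sum_insert ha]
    rw [e1]
    refine (nrm_add p hp _ _).trans ?_
    gcongr

theorem nrm_avg {ι : Type*} (p : ℝ) (hp : 1 ≤ p) (S : Finset ι) (hS : S.Nonempty) (g : ι → G → ℝ) (c : ℝ)
    (h : ∀ s ∈ S, nrm p (g s) ≤ c) : nrm p (fun y => (∑ s ∈ S, g s y) / S.card) ≤ c := by
  have hSpos : (0 : ℝ) < S.card := by exact_mod_cast hS.card_pos
  have e1 : (fun y => (∑ s ∈ S, g s y) / S.card) = fun y => (1 / (S.card : ℝ)) * ∑ s ∈ S, g s y := by
    funext y
    ring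
  rw [e1, nrm_mul p (by linarith), abs_of_pos (by positivity)]
  have h1 := (nrm_sum p hp S g).trans (sum_le_sum h)
  rw [sum_const, nsmul_eq_mul] at h1
  calc 1 / (S.card : ℝ) * nrm p (fun y => ∑ s ∈ S, g s y) ≤ 1 / (S.card : ℝ) * (S.card * c) := by gcongr
    _ = c := by field_simp

theorem ap_cv (μ : G → ℝ) (S W : Finset G) (hS : S.Nonempty) (p : ℝ) (hp : 1 ≤ p) (t : G) (c : ℝ)
    (h : nrm p (fun y => hm μ W (y + t) - hm μ W y) ≤ c) :
    nrm p (fun y => hm (cv μ S) W (y + t) - hm (cv μ S) W y) ≤ c := by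
  have e1 : (fun y => hm (cv μ S) W (y + t) - hm (cv μ S) W y) =
      fun y => (∑ s ∈ S, (fun y => hm μ W (y + s + t) - hm μ W (y + s)) y) / S.card := by
    funext y
    rw [hm_cv, hm_cv, ← sub_div, ← sum_sub_distrib]
    congr 1
    apply sum_congr rfl
    intro s _
    have : y + t + s = y + s + t := by abel
    rw [this]
  rw [e1]
  refine nrm_avg p hp S hS (fun s y => hm μ W (y + s + t) - hm μ W (y + s)) c ?_
  intro s _
  rw [nrm_shift p (fun y => hm μ W (y + t) - hm μ W y) s]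
  exact h

theorem ap_cvN (μ : G → ℝ) (S W : Finset G) (hS : S.Nonempty) (p : ℝ) (hp : 1 ≤ p) (t : G) (c : ℝ)
    (h : nrm p (fun y => hm μ W (y + t) - hm μ W y) ≤ c) (i : ℕ) :
    nrm p (fun y => hm (cvN μ S i) W (y + t) - hm (cvN μ S i) W y) ≤ c := by
  induction i with
  | zero => exact h
  | succ i ih => exact ap_cv _ S W hS p hp t c ih

theorem drift (μ : G → ℝ) (S W : Finset G) (hS : S.Nonempty) (p : ℝ) (hp : 1 ≤ p) (c : ℝ)
    (h : ∀ s ∈ S, nrm p (fun y => hm μ W (y + s) - hm μ W y) ≤ c) (i : ℕ) :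
    nrm p (fun y => hm (cvN μ S i) W y - hm μ W y) ≤ i * c := by
  induction i with
  | zero =>
    change nrm p (fun y => hm μ W y - hm μ W y) ≤ _
    simp only [sub_self, Nat.cast_zero, zero_mul]
    rw [nrm_zero p (by linarith)]
  | succ i ih =>
    have e1 : (fun y => hm (cvN μ S (i + 1)) W y - hm μ W y) =
        fun y => ((∑ s ∈ S, (fun y => hm (cvN μ S i) W (y + s) - hm (cvN μ S i) W y) y) / S.card) +
          (hm (cvN μ S i) W y - hm μ W y) := by
      funext y
      change hm (cv (cvN μ S i) S) W y - _ = _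
      have hSpos : (S.card : ℝ) ≠ 0 := by exact_mod_cast hS.card_pos.ne'
      rw [hm_cv, sum_sub_distrib, sum_const, nsmul_eq_mul, sub_div, mul_div_cancel_left₀ _ hSpos]
      ring
    rw [e1]
    refine (nrm_add p hp _ _).trans ?_
    have h2 := nrm_avg p hp S hS (fun s y => hm (cvN μ S i) W (y + s) - hm (cvN μ S i) W y) c
      (fun s hs => ap_cvN μ S W hS p hp s c (h s hs) i)
    push_cast
    linarith

theorem ap_sum (μ : G → ℝ) (W : Finset G) (p : ℝ) (hp : 1 ≤ p) (c : ℝ) (i : ℕ) (v : Fin i → G)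
    (h : ∀ j, nrm p (fun y => hm μ W (y + v j) - hm μ W y) ≤ c) :
    nrm p (fun y => hm μ W (y + ∑ j, v j) - hm μ W y) ≤ i * c := by
  induction i with
  | zero =>
    simp only [univ_eq_empty, sum_empty, add_zero, sub_self, Nat.cast_zero, zero_mul]
    rw [nrm_zero p (by linarith)]
  | succ i ih =>
    have e1 : (fun y => hm μ W (y + ∑ j, v j) - hm μ W y) =
        fun y => (hm μ W (y + (∑ j : Fin i, v j.castSucc) + v (Fin.last i)) - hm μ W (y + ∑ j : Fin i, v j.castSucc)) +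
          (hm μ W (y + ∑ j : Fin i, v j.castSucc) - hm μ W y) := by
      funext y
      rw [Fin.sum_univ_castSucc, ← add_assoc]
      ring
    rw [e1]
    refine (nrm_add p hp _ _).trans ?_
    rw [nrm_shift p (fun y => hm μ W (y + v (Fin.last i)) - hm μ W y) (∑ j : Fin i, v j.castSucc)]
    have h2 := h (Fin.last i)
    have h3 := ih (fun j => v j.castSucc) (fun j => h _)
    push_cast
    linarith

/-- from the norm to the average over `Y` -/
theorem avgY (q : ℕ) (hq : 0 < q) (Y : Finset G) (hY : Y.Nonempty) (g : G → ℝ) (c : ℝ) (hc : 0 ≤ c)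
    (h : nrm (2 * q) g ≤ c * (Y.card : ℝ) ^ (1 / (2 * q : ℝ))) : ∑ b ∈ Y, |g (-b)| ≤ c * Y.card := by
  have hYpos : (0 : ℝ) < Y.card := by exact_mod_cast hY.card_pos
  have hq' : (0 : ℝ) < q := by exact_mod_cast hq
  have h1 : ∑ z, (g z) ^ (2 * q) ≤ c ^ (2 * q) * Y.card := by
    rw [← nrm_pow q hq]
    calc (nrm (2 * q) g) ^ (2 * q) ≤ (c * (Y.card : ℝ) ^ (1 / (2 * q : ℝ))) ^ (2 * q) := by
          gcongr
          exact nrm_nonneg _ _
      _ = _ := by
          rw [mul_pow]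
          congr 1
          rw [← Real.rpow_natCast, ← Real.rpow_mul hYpos.le]
          have : 1 / (2 * (q : ℝ)) * ((2 * q : ℕ) : ℝ) = 1 := by push_cast; field_simp
          rw [this, Real.rpow_one]
  have h2 : ∑ b ∈ Y, |g (-b)| ^ (2 * q) ≤ c ^ (2 * q) * Y.card := by
    refine le_trans ?_ h1
    have e1 : ∀ b, |g (-b)| ^ (2 * q) = (g (-b)) ^ (2 * q) := by
      intro b
      rw [pow_mul, pow_mul, sq_abs]
    simp_rw [e1]
    have e2 : ∀ b, 0 ≤ (g (-b)) ^ (2 * q) := by
      intro b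
      rw [pow_mul]; positivity
    calc _ ≤ ∑ b, (g (-b)) ^ (2 * q) := sum_le_sum_of_subset_of_nonneg (subset_univ _) fun b _ _ => e2 b
      _ = _ := Equiv.sum_comp (Equiv.neg G) (fun z => (g z) ^ (2 * q))
  have h3 := pow_sum_div_card_le_sum_pow (s := Y) (f := fun b => |g (-b)|) (fun b _ => abs_nonneg _) (2 * q - 1)
  have e2 : 2 * q - 1 + 1 = 2 * q := by omega
  rw [e2, div_le_iff₀ (by positivity)] at h3
  have h4 : (∑ b ∈ Y, |g (-b)|) ^ (2 * q) ≤ (c * Y.card) ^ (2 * q) := by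
    refine h3.trans ?_
    calc (∑ b ∈ Y, |g (-b)| ^ (2 * q)) * (Y.card : ℝ) ^ (2 * q - 1)
        ≤ (c ^ (2 * q) * Y.card) * (Y.card : ℝ) ^ (2 * q - 1) := by gcongr
      _ = c ^ (2 * q) * (Y.card : ℝ) ^ (2 * q - 1 + 1) := by rw [pow_succ]; ring
      _ = _ := by rw [e2, mul_pow]
  exact le_of_pow_le_pow_left₀ (by omega) (by positivity) h4

theorem hm_uni (L Y : Finset G) (hL : L.Nonempty) (b : G) (hb : b ∈ Y) : hm (uni L) (L - Y) (-b) = 1 := by
  have h1 := (uni_prob hL).2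
  rw [← h1]
  unfold hm
  apply sum_congr rfl
  intro x _
  unfold uni
  split_ifs with hx
  · have : ind (L - Y) (x + -b) = 1 := by
      unfold ind
      rw [if_pos]
      rw [← sub_eq_add_neg]
      exact sub_mem_sub hx hb
    rw [this, mul_one]
  · rw [zero_mul]

/-- the average over `Y` for a measure close to the uniform measure of `L` -/
theorem avg_low (L Y : Finset G) (hL : L.Nonempty) (hY : Y.Nonempty) (q : ℕ) (hq : 0 < q) (μ : G → ℝ) (t : G)
    (c c' : ℝ) (hc : 0 ≤ c) (hc' : 0 ≤ c')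
    (h1 : nrm (2 * q) (fun y => hm μ (L - Y) (y + t) - hm μ (L - Y) y) ≤ c * (Y.card : ℝ) ^ (1 / (2 * q : ℝ)))
    (h2 : nrm (2 * q) (fun y => hm μ (L - Y) y - hm (uni L) (L - Y) y) ≤ c' * (Y.card : ℝ) ^ (1 / (2 * q : ℝ))) :
    (1 - (c + c')) * (Y.card : ℝ) ≤ ∑ b ∈ Y, hm μ (L - Y) (-b + t) := by
  have hp : (1 : ℝ) ≤ 2 * q := by
    have : (1 : ℝ) ≤ q := by exact_mod_cast hq
    linarith
  have h3 : nrm (2 * q) (fun y => hm μ (L - Y) (y + t) - hm (uni L) (L - Y) y) ≤
      (c + c') * (Y.card : ℝ) ^ (1 / (2 * q : ℝ)) := by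
    have e1 : (fun y => hm μ (L - Y) (y + t) - hm (uni L) (L - Y) y) =
        fun y => (hm μ (L - Y) (y + t) - hm μ (L - Y) y) + (hm μ (L - Y) y - hm (uni L) (L - Y) y) := by
      funext y
      ring
    rw [e1]
    refine (nrm_add _ hp _ _).trans ?_
    rw [add_mul]
    exact add_le_add h1 h2
  have h4 := avgY q hq Y hY _ (c + c') (by positivity) h3
  have h5 : ∀ b ∈ Y, 1 - |hm μ (L - Y) (-b + t) - hm (uni L) (L - Y) (-b)| ≤ hm μ (L - Y) (-b + t) := by
    intro b hb
    rw [hm_uni L Y hL b hb]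
    have := neg_abs_le (hm μ (L - Y) (-b + t) - 1)
    linarith
  have h6 := sum_le_sum h5
  rw [sum_sub_distrib, sum_const, nsmul_eq_mul, mul_one] at h6
  linarith

/-- a common value of the two averages -/
theorem mem_of_avg (μ : G → ℝ) (hμ : IsProb μ) (W Y : Finset G) (hY : Y.Nonempty) (t : G)
    (h1 : 3 / 4 * (Y.card : ℝ) ≤ ∑ b ∈ Y, hm μ W (-b)) (h2 : 3 / 4 * (Y.card : ℝ) ≤ ∑ b ∈ Y, hm μ W (-b + t)) :
    t ∈ W - W := by
  by_contra hcon
  have hYpos : (0 : ℝ) < Y.card := by exact_mod_cast hY.card_pos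
  have h3 : ∀ b ∈ Y, hm μ W (-b) + hm μ W (-b + t) ≤ 1 := by
    intro b _
    unfold hm
    rw [← sum_add_distrib, ← hμ.2]
    apply sum_le_sum
    intro x _
    rw [← mul_add]
    have h4 : ind W (x + -b) + ind W (x + (-b + t)) ≤ 1 := by
      unfold ind
      by_cases h : x + -b ∈ W
      · rw [if_pos h, if_neg]
        · norm_num
        · intro h'
          apply hcon
          have : t = (x + (-b + t)) - (x + -b) := by abel
          rw [this]
          exact sub_mem_sub h' h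
      · rw [if_neg h]
        split_ifs <;> norm_num
    calc μ x * (ind W (x + -b) + ind W (x + (-b + t))) ≤ μ x * 1 := mul_le_mul_of_nonneg_left h4 (hμ.1 x)
      _ = μ x := mul_one _
  have h4 := sum_le_sum h3
  rw [sum_add_distrib, sum_const, nsmul_eq_mul, mul_one] at h4
  linarith

end Pool.Agent.H89.EN
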