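import Pool.Agent.H89.EN.Iter

/-!
# The recursion
-/

set_option autoImplicit false
set_option linter.unusedSectionVars false
set_option linter.unusedVariables false

namespace Pool.Agent.H89.EN

open Finset Pool.Agent.K4H60.BZ
open scoped Pointwise BigOperators ComplexConjugate

variable {G : Type*} [AddCommGroup G] [Fintype G] [DecidableEq G]

/-- the state after `j` doublings: a measure `μ` on `X` close to the uniform measure of `L`, and a set `T` of density
`exp (- c)` whose differences are almost periods of `μ` with error `E / 2 ^ j` -/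
def St (L W Y X : Finset G) (q j : ℕ) (E c : ℝ) : Prop :=
  ∃ (μ : G → ℝ) (T : Finset G), IsProb μ ∧ (∀ x, μ x ≠ 0 → x ∈ X) ∧ T.Nonempty ∧ Real.log L.card ≤ ent μ ∧
    (∀ t ∈ T, ∀ t' ∈ T, nrm (2 * q) (fun y => hm μ W (y + (t - t')) - hm μ W y) ≤
      (E / 2 ^ j) * (Y.card : ℝ) ^ (1 / (2 * q : ℝ))) ∧
    nrm (2 * q) (fun y => hm μ W y - hm (uni L) W y) ≤ E * (Y.card : ℝ) ^ (1 / (2 * q : ℝ)) ∧
    Real.log (Fintype.card G / T.card) ≤ c

theorem log_four_le : Real.log 4 ≤ 2 := by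
  have h1 := Real.log_two_lt_d9
  have h2 : (4 : ℝ) = 2 ^ 2 := by norm_num
  rw [h2, Real.log_pow]
  push_cast
  linarith

theorem uni_supp (L : Finset G) (x : G) (hx : uni L x ≠ 0) : x ∈ L := by
  by_contra h
  apply hx
  unfold uni
  rw [if_neg h]

theorem log_density (T T' : Finset G) (hT : T.Nonempty) (hT' : T'.Nonempty) (u : ℝ)
    (h : (T.card : ℝ) ≤ 4 * Real.exp u * T'.card) :
    Real.log (Fintype.card G / T'.card) ≤ Real.log (Fintype.card G / T.card) + 2 + u := by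
  have hTpos : (0 : ℝ) < T.card := by exact_mod_cast hT.card_pos
  have hT'pos : (0 : ℝ) < T'.card := by exact_mod_cast hT'.card_pos
  have hGpos : (0 : ℝ) < Fintype.card G := by exact_mod_cast Fintype.card_pos
  have h3 : (Fintype.card G : ℝ) / T'.card ≤ (Fintype.card G / T.card) * (4 * Real.exp u) := by
    rw [div_mul_eq_mul_div, div_le_div_iff₀ hT'pos hTpos]
    calc (Fintype.card G : ℝ) * T.card ≤ Fintype.card G * (4 * Real.exp u * T'.card) := by gcongr
      _ = _ := by ring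
  have h4 := Real.log_le_log (by positivity) h3
  rw [Real.log_mul (by positivity) (by positivity), Real.log_mul (by norm_num) (Real.exp_pos _).ne',
    Real.log_exp] at h4
  linarith [log_four_le]

/-- the first sampling -/
theorem base (L W Y S : Finset G) (hL : L.Nonempty) (hY : Y.Nonempty) (hS : S.Nonempty) (hW : W.Nonempty) (q : ℕ)
    (hq : 0 < q) (hWY : 2 * (W.card : ℝ) ≤ Real.exp q * Y.card) (b : ℝ) (hb : 0 ≤ b)
    (hLS : Real.log (L + S).card ≤ Real.log L.card + b) (E : ℝ) (hE : 0 < E) (hE1 : E ≤ 1) :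
    St L W Y L q 0 E (Real.log (Fintype.card G / S.card) + 2 + 244 * q * b / E ^ 2) := by
  have hq' : (1 : ℝ) ≤ q := by exact_mod_cast hq
  obtain ⟨n, hn⟩ : ∃ n : ℕ, n = ⌈121 * q / E ^ 2⌉₊ := ⟨_, rfl⟩
  have hn1 : 121 * q / E ^ 2 ≤ n := by rw [hn]; exact Nat.le_ceil _
  have hE2 : E ^ 2 ≤ 1 := by nlinarith
  have hn2 : (n : ℝ) ≤ 122 * q / E ^ 2 := by
    have h1 := Nat.ceil_lt_add_one (show 0 ≤ 121 * (q : ℝ) / E ^ 2 by positivity)
    rw [← hn] at h1
    have h2 : (1 : ℝ) ≤ q / E ^ 2 := by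
      rw [le_div_iff₀ (by positivity)]
      linarith
    have h3 : 122 * (q : ℝ) / E ^ 2 = 121 * q / E ^ 2 + q / E ^ 2 := by ring
    linarith
  rw [div_le_iff₀ (by positivity)] at hn1
  have hent : ent (cv (uni L) S) - ent (uni L) ≤ b := by
    have h1 := ent_le_log (cv (uni L) S) (cv_prob (uni_prob hL) hS) (L + S) (by
      intro x hx
      obtain ⟨y, hy, v, hv, e⟩ := cvN_supp (μ := uni L) S L (uni_supp L) 1 x hx
      rw [e, Fin.sum_univ_one]
      exact add_mem_add hy (hv 0))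
    rw [ent_uni hL]
    linarith
  obtain ⟨T, hTS, hcard, hT⟩ := cs_ent (uni L) (uni_prob hL) W Y S hW hY hS q hq hWY n E hE hE1 (by linarith) b hent
  have hTne : T.Nonempty := by
    rw [nonempty_iff_ne_empty]
    rintro rfl
    rw [card_empty, Nat.cast_zero, mul_zero] at hcard
    have : (0 : ℝ) < S.card := by exact_mod_cast hS.card_pos
    linarith
  refine ⟨uni L, T, uni_prob hL, uni_supp L, hTne, (ent_uni hL).ge, ?_, ?_, ?_⟩
  · intro t ht t' ht'
    rw [pow_zero, div_one]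
    exact hT t ht t' ht'
  · simp only [sub_self]
    rw [nrm_zero _ (by positivity)]
    positivity
  · refine (log_density S T hS hTne _ hcard).trans ?_
    have h1 : 2 * (n : ℝ) * b ≤ 2 * (122 * q / E ^ 2) * b := by gcongr
    have h2 : 2 * (122 * (q : ℝ) / E ^ 2) * b = 244 * q * b / E ^ 2 := by ring
    linarith

/-- one doubling -/
theorem step (L Y X : Finset G) (hL : L.Nonempty) (hY : Y.Nonempty) (hX : X.Nonempty) (q : ℕ)
    (hq : 0 < q) (hWY : 2 * ((L - Y).card : ℝ) ≤ Real.exp q * Y.card) (b : ℝ) (hb : 0 ≤ b) (j : ℕ)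
    (hXb : Real.log (X + ((L - Y) - (L - Y))).card ≤ Real.log L.card + b) (E c : ℝ) (hE : 0 < E) (hE1 : E ≤ 1 / 8)
    (h : St L (L - Y) Y X q j (4 / 5 * E) c) :
    St L (L - Y) Y (X + ((L - Y) - (L - Y))) q (j + 1) E (c + 2 + 3904 * q * b * 2 ^ j / E ^ 2) := by
  classical
  have hq' : (1 : ℝ) ≤ q := by exact_mod_cast hq
  have hp : (1 : ℝ) ≤ 2 * q := by linarith
  obtain ⟨μ, T, hμ, hsupp, hT, hent, hap, hdr, hc⟩ := h
  obtain ⟨t₀, ht₀⟩ := hT
  obtain ⟨K, hK⟩ : ∃ K : ℝ, K = (Y.card : ℝ) ^ (1 / (2 * q : ℝ)) := ⟨_, rfl⟩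
  rw [← hK] at hap hdr
  have hYpos : (0 : ℝ) < Y.card := by exact_mod_cast hY.card_pos
  have hKpos : 0 < K := by rw [hK]; positivity
  obtain ⟨P, hP⟩ : ∃ P : ℝ, P = 2 ^ j := ⟨_, rfl⟩
  have hP1 : 1 ≤ P := by rw [hP]; exact one_le_pow₀ (by norm_num)
  rw [← hP] at hap
  rw [← hP]
  -- the set of the differences with `t₀`
  obtain ⟨T', hT'⟩ : ∃ T' : Finset G, T' = T.image (fun t => t - t₀) := ⟨_, rfl⟩
  have hT'ne : T'.Nonempty := by rw [hT']; exact ⟨_, mem_image_of_mem _ ht₀⟩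
  have hT'card : T'.card = T.card := by
    rw [hT', card_image_of_injective _ (sub_left_injective (b := t₀))]
  have hap' : ∀ s ∈ T', nrm (2 * q) (fun y => hm μ (L - Y) (y + s) - hm μ (L - Y) y) ≤ (4 / 5 * E / P) * K := by
    intro s hs
    rw [hT', mem_image] at hs
    obtain ⟨t, ht, rfl⟩ := hs
    exact hap t ht t₀ ht₀
  -- the number of copies
  obtain ⟨M, hM⟩ : ∃ M : ℕ, M = ⌈P / 4⌉₊ := ⟨_, rfl⟩
  have hM0 : 0 < M := by rw [hM, Nat.ceil_pos]; positivity
  have hM1 : P / 4 ≤ M := by rw [hM]; exact Nat.le_ceil _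
  have hM2 : (M : ℝ) < P / 4 + 1 := by rw [hM]; exact Nat.ceil_lt_add_one (by positivity)
  -- the sums of at most `M` elements
  have hmem : ∀ i ≤ M, ∀ v : Fin i → G, (∀ k, v k ∈ T') → ∑ k, v k ∈ (L - Y) - (L - Y) := by
    intro i hi v hv
    have hi' : (i : ℝ) ≤ M := by exact_mod_cast hi
    have h1 := ap_sum μ (L - Y) (2 * q) hp (4 / 5 * E / P * K) i v (fun k => hap' _ (hv k))
    have h2 : (i : ℝ) * (4 / 5 * E / P * K) ≤ E * K := by
      have h3 : (i : ℝ) * (4 / 5 * E / P) ≤ E := by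
        have h4 : (i : ℝ) ≤ 5 / 4 * P := by linarith
        calc (i : ℝ) * (4 / 5 * E / P) ≤ (5 / 4 * P) * (4 / 5 * E / P) := by gcongr
          _ = E := by field_simp
      calc (i : ℝ) * (4 / 5 * E / P * K) = (i : ℝ) * (4 / 5 * E / P) * K := by ring
        _ ≤ E * K := by gcongr
    have h3 := avg_low L Y hL hY q hq μ (∑ k, v k) E (4 / 5 * E) hE.le (by positivity) (by
      rw [← hK]; exact h1.trans h2) (by rw [← hK]; exact hdr)
    have h4 := avg_low L Y hL hY q hq μ 0 0 (4 / 5 * E) le_rfl (by positivity) (by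
      simp only [add_zero, sub_self]
      rw [nrm_zero _ (by positivity), zero_mul]) (by rw [← hK]; exact hdr)
    simp only [add_zero] at h4
    apply mem_of_avg μ hμ (L - Y) Y hY
    · refine le_trans ?_ h4
      gcongr
      linarith
    · refine le_trans ?_ h3
      gcongr
      linarith
  have hsupp' : ∀ i ≤ M, ∀ x, cvN μ T' i x ≠ 0 → x ∈ X + ((L - Y) - (L - Y)) := by
    intro i hi x hx
    obtain ⟨y, hy, v, hv, e⟩ := cvN_supp T' X hsupp i x hx
    rw [e]
    exact add_mem_add hy (hmem i hi v hv)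
  -- the step of small growth
  obtain ⟨i, hi, hgrow⟩ := pigeon μ T' M hM0 b (by
    have h1 := ent_le_log (cvN μ T' M) (cvN_prob hμ hT'ne M) _ (hsupp' M le_rfl)
    linarith)
  have hgrow' : ent (cv (cvN μ T' i) T') - ent (cvN μ T' i) ≤ 4 * b / P := by
    refine hgrow.trans ?_
    rw [div_le_div_iff₀ (by exact_mod_cast hM0) (by positivity)]
    nlinarith
  -- the number of the sampled points
  obtain ⟨n, hn⟩ : ∃ n : ℕ, n = ⌈121 * q * (2 * P) ^ 2 / E ^ 2⌉₊ := ⟨_, rfl⟩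
  have hn1 : 121 * q * (2 * P) ^ 2 / E ^ 2 ≤ n := by rw [hn]; exact Nat.le_ceil _
  have hE2 : E ^ 2 ≤ 1 := by nlinarith
  have hn2 : (n : ℝ) ≤ 488 * q * P ^ 2 / E ^ 2 := by
    have h1 := Nat.ceil_lt_add_one (show 0 ≤ 121 * (q : ℝ) * (2 * P) ^ 2 / E ^ 2 by positivity)
    rw [← hn] at h1
    have h2 : (1 : ℝ) ≤ q * P ^ 2 / E ^ 2 := by
      rw [le_div_iff₀ (by positivity)]
      have : 1 ≤ P ^ 2 := one_le_pow₀ hP1
      nlinarith
    have h3 : 488 * (q : ℝ) * P ^ 2 / E ^ 2 = 121 * q * (2 * P) ^ 2 / E ^ 2 + 4 * (q * P ^ 2 / E ^ 2) := by ring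
    linarith
  have hη : 0 < E / (2 * P) := by positivity
  have hη1 : E / (2 * P) ≤ 1 := by
    rw [div_le_one (by positivity)]
    linarith
  have hn3 : 121 * (q : ℝ) ≤ (E / (2 * P)) ^ 2 * n := by
    rw [div_le_iff₀ (by positivity)] at hn1
    rw [div_pow, div_mul_eq_mul_div, le_div_iff₀ (by positivity)]
    linarith
  have hμ' := cvN_prob hμ hT'ne i
  have hW : (L - Y).Nonempty := hL.sub hY
  obtain ⟨T'', hT''T, hcard, hT''⟩ := cs_ent (cvN μ T' i) hμ' (L - Y) Y T' hW hY hT'ne q hq hWY n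
    (E / (2 * P)) hη hη1 hn3 (4 * b / P) hgrow'
  have hT''ne : T''.Nonempty := by
    rw [nonempty_iff_ne_empty]
    rintro rfl
    rw [card_empty, Nat.cast_zero, mul_zero] at hcard
    have : (0 : ℝ) < T'.card := by exact_mod_cast hT'ne.card_pos
    linarith
  refine ⟨cvN μ T' i, T'', hμ', hsupp' i hi.le, hT''ne, hent.trans (ent_cvN hμ hT'ne i), ?_, ?_, ?_⟩
  · intro t ht t' ht'
    refine (hT'' t ht t' ht').trans (le_of_eq ?_)
    rw [pow_succ, ← hP]
    congr 2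
    ring
  · have h1 := drift μ T' (L - Y) hT'ne (2 * q) hp (4 / 5 * E / P * K) hap' i
    have e1 : (fun y => hm (cvN μ T' i) (L - Y) y - hm (uni L) (L - Y) y) =
        fun y => (hm (cvN μ T' i) (L - Y) y - hm μ (L - Y) y) + (hm μ (L - Y) y - hm (uni L) (L - Y) y) := by
      funext y
      ring
    rw [e1, ← hK]
    refine (nrm_add _ hp _ _).trans ?_
    have hi' : (i : ℝ) ≤ P / 4 := by
      have : (i : ℝ) + 1 ≤ M := by exact_mod_cast hi
      linarith
    have h2 : (i : ℝ) * (4 / 5 * E / P * K) ≤ 1 / 5 * E * K := by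
      have h3 : (i : ℝ) * (4 / 5 * E / P) ≤ 1 / 5 * E := by
        calc (i : ℝ) * (4 / 5 * E / P) ≤ (P / 4) * (4 / 5 * E / P) := by gcongr
          _ = 1 / 5 * E := by field_simp
      calc (i : ℝ) * (4 / 5 * E / P * K) = (i : ℝ) * (4 / 5 * E / P) * K := by ring
        _ ≤ 1 / 5 * E * K := by gcongr
    linarith
  · refine (log_density T' T'' hT'ne hT''ne _ hcard).trans ?_
    rw [hT'card]
    have h1 : 2 * (n : ℝ) * (4 * b / P) ≤ 2 * (488 * q * P ^ 2 / E ^ 2) * (4 * b / P) := by gcongr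
    have h2 : 2 * (488 * (q : ℝ) * P ^ 2 / E ^ 2) * (4 * b / P) = 3904 * q * b * P / E ^ 2 := by
      field_simp
      ring
    linarith

/-- the recursion -/
theorem recursion (L Y S : Finset G) (hL : L.Nonempty) (hY : Y.Nonempty) (hS : S.Nonempty) (q : ℕ)
    (hq : 0 < q) (hWY : 2 * ((L - Y).card : ℝ) ≤ Real.exp q * Y.card) (b : ℝ) (hb : 0 ≤ b)
    (hLS : Real.log (L + S).card ≤ Real.log L.card + b) (J : ℕ)
    (hXb : ∀ j ≤ J, Real.log (L + j • ((L - Y) - (L - Y))).card ≤ Real.log L.card + b) :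
    ∀ j ≤ J, ∀ E : ℝ, 0 < E → E ≤ 1 / 8 → St L (L - Y) Y (L + j • ((L - Y) - (L - Y))) q j E
      (Real.log (Fintype.card G / S.card) + 10 ^ 4 * (q * (1 + b) * 2 ^ j / E ^ 2)) := by
  have hq' : (1 : ℝ) ≤ q := by exact_mod_cast hq
  have mono : ∀ (X : Finset G) (j : ℕ) (E c c' : ℝ), c ≤ c' → St L (L - Y) Y X q j E c → St L (L - Y) Y X q j E c' := by
    rintro X j E c c' hcc ⟨μ, T, h1, h2, h3, h4, h5, h6, h7⟩
    exact ⟨μ, T, h1, h2, h3, h4, h5, h6, h7.trans hcc⟩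
  intro j
  induction j with
  | zero =>
    intro _ E hE hE1
    rw [zero_nsmul, add_zero]
    refine mono _ _ _ _ _ ?_ (base L (L - Y) Y S hL hY hS (hL.sub hY) q hq hWY b hb hLS E hE (by linarith))
    have h1 : (1 : ℝ) ≤ q / E ^ 2 := by
      rw [le_div_iff₀ (by positivity)]
      nlinarith
    have h2 : 0 ≤ q * b / E ^ 2 := by positivity
    have h3 : 10 ^ 4 * ((q : ℝ) * (1 + b) * 2 ^ 0 / E ^ 2) = 10 ^ 4 * (q / E ^ 2) + 10 ^ 4 * (q * b / E ^ 2) := by
      ring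
    have h4 : 244 * (q : ℝ) * b / E ^ 2 = 244 * (q * b / E ^ 2) := by ring
    rw [h3, h4]
    linarith
  | succ j ih =>
    intro hj E hE hE1
    have h1 := ih (by omega) (4 / 5 * E) (by positivity) (by linarith)
    have hne : (L + j • ((L - Y) - (L - Y))).Nonempty := by
      have hD : (((L - Y) - (L - Y)) : Finset G).Nonempty := (hL.sub hY).sub (hL.sub hY)
      exact hL.add (hD.nsmul)
    have h2 := step L Y _ hL hY hne q hq hWY b hb j (by
      have := hXb (j + 1) hj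
      rw [succ_nsmul, ← add_assoc] at this
      exact this) E _ hE hE1 h1
    rw [succ_nsmul, ← add_assoc]
    refine mono _ _ _ _ _ ?_ h2
    obtain ⟨P, hP⟩ : ∃ P : ℝ, P = 2 ^ j := ⟨_, rfl⟩
    have hP1 : 1 ≤ P := by rw [hP]; exact one_le_pow₀ (by norm_num)
    have e0 : (2 : ℝ) ^ (j + 1) = P * 2 := by rw [pow_succ, hP]
    rw [e0, ← hP]
    obtain ⟨R, hR⟩ : ∃ R : ℝ, R = q * (1 + b) * P / E ^ 2 := ⟨_, rfl⟩
    have e1 : (q : ℝ) * (1 + b) * P / (4 / 5 * E) ^ 2 = 25 / 16 * R := by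
      rw [hR]
      field_simp
      norm_num
    have e2 : (q : ℝ) * (1 + b) * (P * 2) / E ^ 2 = 2 * R := by
      rw [hR]
      ring
    have e3 : 3904 * (q : ℝ) * b * P / E ^ 2 ≤ 3904 * R := by
      rw [hR]
      have : (q : ℝ) * b * P / E ^ 2 ≤ q * (1 + b) * P / E ^ 2 := by
        gcongr
        linarith
      calc 3904 * (q : ℝ) * b * P / E ^ 2 = 3904 * (q * b * P / E ^ 2) := by ring
        _ ≤ _ := by gcongr
    have e4 : 1 ≤ R := by
      rw [hR, le_div_iff₀ (by positivity)]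
      have h3 : (1 : ℝ) ≤ q * (1 + b) := by nlinarith
      have h4 : (1 : ℝ) ≤ q * (1 + b) * P := by nlinarith
      nlinarith
    rw [e1, e2]
    linarith

end Pool.Agent.H89.EN
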